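import Mathlib

/-!
# The top-two-bids Laplace ratio map: a condition near zero only

Let `N ≥ 2`, and let `C` be the class of the distribution functions `F` of positive random variables
with `F x > 0` for `x > 0`. Suppose that `F` in `C` has the following property near zero: there are
`ε > 0` and a positive measure `h` on `[0,∞)`, finite on `[0,ε)`, with

  `F x ^ N = ∫ F (x - t) ^ (N - 1) h(dt)` for `0 < x < ε`.

Nothing is assumed on `F` beyond `ε`. Then every `G` in `C` with `K G = K F` is equal to `F`; nothing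
is assumed on `G`, and no analyticity.

Proof. Write `*` for convolution. By uniqueness of Laplace transforms
`F ^ N * G ^ (N - 1) = F ^ (N - 1) * G ^ N`. A nonnegative factor whose support contains `0` can be
cancelled in an identity on `(-∞,b)` (`cancel`, by the Phragmen-Lindelöf principle), so the identity
`G ^ N = h * G ^ (N - 1)` holds on `(-∞,ε)`. It commutes with translations. For `τ > 0` let
`φ x = F (x - τ)`. The quotient `φ / G` is bounded on `(0,∞)` since `φ` vanishes on `(0,τ]` and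
`G x ≥ G τ > 0` for `x ≥ τ`. Let `M` be the least number with `φ ≤ M G` on `(0,ε)`. As `h` is positive,
convolution gives `φ ^ N ≤ M ^ (N - 1) G ^ N` on `(0,ε)`, hence `M ^ N ≤ M ^ (N - 1)` and `M ≤ 1`.
With `τ → 0` this gives `F ≤ G` on `(0,ε)`, and by symmetry `F = G` on `(0,ε)`. The measure `h` has no
atom at `0` because `F` tends to `0` at `0`. Suppose that `F = G` on `(-∞,a)` with `a ≥ ε`. Then
`(F ^ (N - 1) - G ^ (N - 1)) * (G ^ N - h * G ^ (N - 1))` vanishes on `(-∞,a+ε)`, and by cancellation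
`F ^ N + h * G ^ (N - 1) = G ^ N + h * F ^ (N - 1)` there. An `L¹` estimate of `F ^ N - G ^ N` against
`F ^ (N - 1) - G ^ (N - 1)` on `[a,a+δ)` gives `F = G` there, with `δ` not depending on `a`.
-/

open MeasureTheory ProbabilityTheory Filter Topology Set
open scoped ENNReal

namespace Pool.Agent.Results.MP_18566a_pr.LocalRegularity

/-- `F` is the distribution function of a positive random variable with `F x > 0` for `x > 0`. -/
structure InC (F : ℝ → ℝ) : Prop where
  mono : Monotone F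
  rightCont : ∀ x, ContinuousWithinAt F (Ici x) x
  top : Tendsto F atTop (𝓝 1)
  zero : ∀ x, x ≤ 0 → F x = 0
  pos : ∀ x, 0 < x → 0 < F x

/-- Laplace transform on `(0,∞)`. -/
noncomputable def lap (f : ℝ → ℝ) (s : ℝ) : ℝ := ∫ x in Ioi 0, Real.exp (-s * x) * f x

/-- The weighted measure `exp (-c x) f x dx` on `(0,∞)`. -/
noncomputable def D (c : ℝ) (f : ℝ → ℝ) : Measure ℝ :=
  (volume.restrict (Ioi 0)).withDensity (fun x => ENNReal.ofReal (Real.exp (-c * x) * f x))

/-- The weighted measure `exp (-c x) h(dx)`. -/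
noncomputable def W (c : ℝ) (h : Measure ℝ) : Measure ℝ :=
  h.withDensity (fun x => ENNReal.ofReal (Real.exp (-c * x)))

theorem ext_of_mgf {μ ν : Measure ℝ} [IsFiniteMeasure μ] [IsFiniteMeasure ν]
    (hμ : ∀ t < 1, Integrable (fun x => Real.exp (t * x)) μ)
    (hν : ∀ t < 1, Integrable (fun x => Real.exp (t * x)) ν)
    (h : ∀ t < 1, mgf id μ t = mgf id ν t) : μ = ν := by
  have key : Set.EqOn (complexMGF id μ) (complexMGF id ν) {z : ℂ | z.re < 1} := by
    have hX : AnalyticOnNhd ℂ (complexMGF id μ) {z : ℂ | z.re < 1} := by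
      intro z hz
      apply analyticOnNhd_complexMGF (X := id) (μ := μ)
      have : Iio (1:ℝ) ⊆ interior (integrableExpSet id μ) :=
        interior_maximal (fun t ht => hμ t ht) isOpen_Iio
      exact this hz
    have hY : AnalyticOnNhd ℂ (complexMGF id ν) {z : ℂ | z.re < 1} := by
      intro z hz
      apply analyticOnNhd_complexMGF (X := id) (μ := ν)
      have : Iio (1:ℝ) ⊆ interior (integrableExpSet id ν) :=
        interior_maximal (fun t ht => hν t ht) isOpen_Iio
      exact this hz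
    refine AnalyticOnNhd.eqOn_of_preconnected_of_frequently_eq hX hY
      (convex_halfSpace_re_lt 1).isPreconnected
      (z₀ := ((0 : ℝ) : ℂ)) (by simp) ?_
    have h_real : ∃ᶠ (x : ℝ) in 𝓝[≠] (0:ℝ), complexMGF id μ x = complexMGF id ν x := by
      apply Filter.Eventually.frequently
      have : ∀ᶠ x : ℝ in 𝓝[≠] (0:ℝ), x < 1 :=
        nhdsWithin_le_nhds (Iio_mem_nhds (by norm_num))
      filter_upwards [this] with x hx
      rw [complexMGF_ofReal, complexMGF_ofReal, h x hx]
    rw [frequently_iff_seq_forall] at h_real ⊢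
    obtain ⟨xs, hx_tendsto, hx_eq⟩ := h_real
    refine ⟨fun n ↦ xs n, ?_, fun n ↦ ?_⟩
    · rw [tendsto_nhdsWithin_iff] at hx_tendsto ⊢
      constructor
      · rw [Filter.tendsto_ofReal_iff]
        exact hx_tendsto.1
      · simpa using hx_tendsto.2
    · simp [hx_eq]
  apply Measure.ext_of_charFun
  funext t
  rw [← complexMGF_id_mul_I, ← complexMGF_id_mul_I]
  exact key (by simp)

theorem lintegral_conv' (μ ν : Measure ℝ) [SFinite μ] [SFinite ν] {f : ℝ → ℝ≥0∞} (hf : Measurable f) :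
    ∫⁻ z, f z ∂(μ ∗ ν) = ∫⁻ x, ∫⁻ y, f (x + y) ∂ν ∂μ := Measure.lintegral_conv hf

theorem integrable_exp_conv {μ ν : Measure ℝ} [SFinite μ] [SFinite ν] {t : ℝ}
    (hμ : Integrable (fun x => Real.exp (t * x)) μ)
    (hν : Integrable (fun x => Real.exp (t * x)) ν) :
    Integrable (fun x => Real.exp (t * x)) (μ ∗ ν) := by
  rw [Measure.conv, integrable_map_measure]
  · have := hμ.mul_prod hν
    refine this.congr (ae_of_all _ fun z => ?_)
    simp [mul_add, Real.exp_add]
  · exact (by fun_prop : Measurable fun x : ℝ => Real.exp (t * x)).aestronglyMeasurable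
  · fun_prop

theorem mgf_conv' {μ ν : Measure ℝ} [SFinite μ] [SFinite ν] (t : ℝ) :
    mgf id (μ ∗ ν) t = mgf id μ t * mgf id ν t := by
  unfold mgf
  rw [Measure.conv, integral_map]
  · rw [← integral_prod_mul]
    refine integral_congr_ae (ae_of_all _ fun z => ?_)
    simp [mul_add, Real.exp_add]
  · fun_prop
  · exact (by fun_prop : Measurable fun x : ℝ => Real.exp (t * id x)).aestronglyMeasurable


section basics

variable {c : ℝ} {f : ℝ → ℝ}

theorem measurable_dens (hf : Measurable f) :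
    Measurable (fun x => ENNReal.ofReal (Real.exp (-c * x) * f x)) := by fun_prop

theorem integrable_exp_D (hf : Measurable f) (h0 : ∀ x, 0 ≤ f x) (h1 : ∀ x, f x ≤ 1)
    {t : ℝ} (ht : t < c) : Integrable (fun x => Real.exp (t * x)) (D c f) := by
  unfold D
  rw [integrable_withDensity_iff_integrable_smul' (measurable_dens hf)
    (ae_of_all _ fun x => ENNReal.ofReal_lt_top)]
  have hb : IntegrableOn (fun x => Real.exp (-(c - t) * x)) (Ioi 0) :=
    exp_neg_integrableOn_Ioi 0 (by linarith)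
  refine Integrable.mono' hb ?_ (ae_of_all _ fun x => ?_)
  · exact (by fun_prop : Measurable fun x : ℝ =>
      (ENNReal.ofReal (Real.exp (-c * x) * f x)).toReal • Real.exp (t * x)).aestronglyMeasurable
  · rw [ENNReal.toReal_ofReal (mul_nonneg (Real.exp_pos _).le (h0 x)), smul_eq_mul,
      Real.norm_of_nonneg (by have := h0 x; positivity)]
    have : Real.exp (-(c - t) * x) = Real.exp (-c * x) * Real.exp (t * x) := by
      rw [← Real.exp_add]; ring_nf
    rw [this]
    have h2 := h1 x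
    have h3 := Real.exp_pos (-c * x)
    have h4 := Real.exp_pos (t * x)
    nlinarith [mul_pos h3 h4]

theorem isFinite_D (hc : 0 < c) (hf : Measurable f) (h0 : ∀ x, 0 ≤ f x) (h1 : ∀ x, f x ≤ 1) :
    IsFiniteMeasure (D c f) := by
  have := integrable_exp_D hf h0 h1 hc
  simp only [zero_mul, Real.exp_zero] at this
  exact (integrable_const_iff_isFiniteMeasure one_ne_zero).1 this

theorem mgf_D (hf : Measurable f) (h0 : ∀ x, 0 ≤ f x) (t : ℝ) :
    mgf id (D c f) t = lap f (c - t) := by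
  unfold D mgf lap
  rw [integral_withDensity_eq_integral_toReal_smul (measurable_dens hf)
    (ae_of_all _ fun x => ENNReal.ofReal_lt_top)]
  refine integral_congr_ae (ae_of_all _ fun x => ?_)
  simp only [id]
  rw [ENNReal.toReal_ofReal (mul_nonneg (Real.exp_pos _).le (h0 x)), smul_eq_mul]
  have : Real.exp (-(c - t) * x) = Real.exp (-c * x) * Real.exp (t * x) := by
    rw [← Real.exp_add]; ring_nf
  rw [this]; ring

theorem integrable_exp_W {h : Measure ℝ} {s₀ : ℝ}
    (hi : ∀ s > s₀, Integrable (fun x => Real.exp (-s * x)) h) {t : ℝ} (ht : s₀ < c - t) :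
    Integrable (fun x => Real.exp (t * x)) (W c h) := by
  unfold W
  rw [integrable_withDensity_iff_integrable_smul' (by fun_prop)
    (ae_of_all _ fun x => ENNReal.ofReal_lt_top)]
  refine (hi _ ht).congr (ae_of_all _ fun x => ?_)
  simp only
  rw [ENNReal.toReal_ofReal (Real.exp_pos _).le, smul_eq_mul, ← Real.exp_add]; ring_nf

theorem isFinite_W {h : Measure ℝ} {s₀ : ℝ}
    (hi : ∀ s > s₀, Integrable (fun x => Real.exp (-s * x)) h) (hc : s₀ < c) :
    IsFiniteMeasure (W c h) := by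
  have := integrable_exp_W (c := c) (t := 0) hi (by simpa using hc)
  simp only [zero_mul, Real.exp_zero] at this
  exact (integrable_const_iff_isFiniteMeasure one_ne_zero).1 this

theorem mgf_W {h : Measure ℝ} (t : ℝ) :
    mgf id (W c h) t = ∫ x, Real.exp (-(c - t) * x) ∂h := by
  unfold W mgf
  rw [integral_withDensity_eq_integral_toReal_smul (by fun_prop)
    (ae_of_all _ fun x => ENNReal.ofReal_lt_top)]
  refine integral_congr_ae (ae_of_all _ fun x => ?_)
  simp only [id]
  rw [ENNReal.toReal_ofReal (Real.exp_pos _).le, smul_eq_mul, ← Real.exp_add]; ring_nf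

/-- Equality of products of Laplace transforms gives equality of convolutions. -/
theorem global_identity {f₁ g₁ f₂ g₂ : ℝ → ℝ} {s₀ : ℝ} (hs₀ : 0 ≤ s₀)
    (hf₁ : Measurable f₁) (f₁0 : ∀ x, 0 ≤ f₁ x) (f₁1 : ∀ x, f₁ x ≤ 1)
    (hg₁ : Measurable g₁) (g₁0 : ∀ x, 0 ≤ g₁ x) (g₁1 : ∀ x, g₁ x ≤ 1)
    (hf₂ : Measurable f₂) (f₂0 : ∀ x, 0 ≤ f₂ x) (f₂1 : ∀ x, f₂ x ≤ 1)
    (hg₂ : Measurable g₂) (g₂0 : ∀ x, 0 ≤ g₂ x) (g₂1 : ∀ x, g₂ x ≤ 1)
    (h : ∀ s, s₀ < s → lap f₁ s * lap g₁ s = lap f₂ s * lap g₂ s) :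
    D (s₀ + 1) f₁ ∗ D (s₀ + 1) g₁ = D (s₀ + 1) f₂ ∗ D (s₀ + 1) g₂ := by
  have i1 : IsFiniteMeasure (D (s₀ + 1) f₁) := isFinite_D (by linarith) hf₁ f₁0 f₁1
  have i2 : IsFiniteMeasure (D (s₀ + 1) g₁) := isFinite_D (by linarith) hg₁ g₁0 g₁1
  have i3 : IsFiniteMeasure (D (s₀ + 1) f₂) := isFinite_D (by linarith) hf₂ f₂0 f₂1
  have i4 : IsFiniteMeasure (D (s₀ + 1) g₂) := isFinite_D (by linarith) hg₂ g₂0 g₂1
  apply ext_of_mgf
  · intro t ht
    exact integrable_exp_conv (integrable_exp_D hf₁ f₁0 f₁1 (by linarith))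
      (integrable_exp_D hg₁ g₁0 g₁1 (by linarith))
  · intro t ht
    exact integrable_exp_conv (integrable_exp_D hf₂ f₂0 f₂1 (by linarith))
      (integrable_exp_D hg₂ g₂0 g₂1 (by linarith))
  · intro t ht
    rw [mgf_conv', mgf_conv', mgf_D hf₁ f₁0, mgf_D hg₁ g₁0, mgf_D hf₂ f₂0, mgf_D hg₂ g₂0,
      h (s₀ + 1 - t) (by linarith)]

end basics

section conv

theorem conv_apply' (μ ν : Measure ℝ) [SFinite μ] [SFinite ν] {A : Set ℝ} (hA : MeasurableSet A) :
    (μ ∗ ν) A = ∫⁻ x, ν ((fun y => x + y) ⁻¹' A) ∂μ := by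
  rw [← lintegral_indicator_one hA, lintegral_conv' μ ν (measurable_one.indicator hA)]
  refine lintegral_congr fun x => ?_
  have hB : MeasurableSet ((fun y => x + y) ⁻¹' A) := (measurable_const_add x) hA
  rw [← lintegral_indicator_one hB]
  rfl

/-- Monotonicity of the convolution, local version. -/
theorem conv_le (μ ν₁ ν₂ : Measure ℝ) [SFinite μ] [SFinite ν₁] [SFinite ν₂] {C : ℝ≥0∞}
    (hC : C ≠ ∞) {e b : ℝ} (hμ : μ (Iio e) = 0)
    (h : ∀ B, MeasurableSet B → B ⊆ Iio (b - e) → ν₁ B ≤ C * ν₂ B) {A : Set ℝ}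
    (hA : MeasurableSet A) (hAb : A ⊆ Iio b) : (μ ∗ ν₁) A ≤ C * (μ ∗ ν₂) A := by
  rw [conv_apply' μ ν₁ hA, conv_apply' μ ν₂ hA, ← lintegral_const_mul' _ _ hC]
  apply lintegral_mono_ae
  have hae : ∀ᵐ x ∂μ, e ≤ x := by
    rw [ae_iff]; simpa [Iio_def] using hμ
  filter_upwards [hae] with x hx
  apply h _ ((measurable_const_add x) hA)
  intro y hy
  have h2 : x + y < b := hAb hy
  simp only [mem_Iio]; linarith

end conv

section density

variable {c : ℝ} {f g : ℝ → ℝ}

theorem D_apply {A : Set ℝ} (hA : MeasurableSet A) :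
    D c f A = ∫⁻ x in A ∩ Ioi 0, ENNReal.ofReal (Real.exp (-c * x) * f x) := by
  unfold D
  rw [withDensity_apply _ hA, Measure.restrict_restrict hA]

theorem D_neg {A : Set ℝ} (hA : MeasurableSet A) (h : A ⊆ Iio 0) : D c f A = 0 := by
  rw [D_apply hA]
  have : A ∩ Ioi 0 = ∅ := by
    ext x; simp only [mem_inter_iff, mem_Ioi, mem_empty_iff_false, iff_false, not_and]
    intro hx; have := h hx; simp only [mem_Iio] at this; linarith
  rw [this]; simp

theorem D_le_of_le {C b : ℝ} (hC : 0 ≤ C) (h : ∀ x, 0 < x → x < b → f x ≤ C * g x)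
    {A : Set ℝ} (hA : MeasurableSet A) (hAb : A ⊆ Iio b) :
    D c f A ≤ ENNReal.ofReal C * D c g A := by
  rw [D_apply hA, D_apply hA, ← lintegral_const_mul' _ _ ENNReal.ofReal_ne_top]
  apply setLIntegral_mono_ae' (hA.inter measurableSet_Ioi)
  refine ae_of_all _ fun x hx => ?_
  rw [← ENNReal.ofReal_mul hC]
  apply ENNReal.ofReal_le_ofReal
  have h1 := h x hx.2 (hAb hx.1)
  have h2 := Real.exp_pos (-c * x)
  nlinarith

theorem ae_le_of_D_le {C b : ℝ} (hC : 0 ≤ C) (hf : Measurable f) (hg : Measurable g)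
    (hg0 : ∀ x, 0 ≤ g x)
    (h : ∀ A, MeasurableSet A → A ⊆ Iio b → D c f A ≤ ENNReal.ofReal C * D c g A) :
    ∀ᵐ x ∂(volume.restrict (Ioo 0 b)), f x ≤ C * g x := by
  have key : ∀ᵐ x ∂(volume.restrict (Ioo 0 b)),
      ENNReal.ofReal (Real.exp (-c * x) * f x) ≤
        ENNReal.ofReal (Real.exp (-c * x) * (C * g x)) := by
    apply ae_le_of_forall_setLIntegral_le_of_sigmaFinite (by fun_prop)
    intro s hs _
    rw [Measure.restrict_restrict hs]
    have h1 := h (s ∩ Ioo 0 b) (hs.inter measurableSet_Ioo) (fun x hx => hx.2.2)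
    have e1 : s ∩ Ioo 0 b ∩ Ioi 0 = s ∩ Ioo 0 b := by
      ext x; simp only [mem_inter_iff, mem_Ioo, mem_Ioi]; tauto
    rw [D_apply (hs.inter measurableSet_Ioo), D_apply (hs.inter measurableSet_Ioo), e1,
      ← lintegral_const_mul' _ _ ENNReal.ofReal_ne_top] at h1
    refine h1.trans (le_of_eq (lintegral_congr fun x => ?_))
    rw [← ENNReal.ofReal_mul hC]; ring_nf
  filter_upwards [key] with x hx
  have h2 := Real.exp_pos (-c * x)
  have h3 : Real.exp (-c * x) * f x ≤ Real.exp (-c * x) * (C * g x) :=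
    (ENNReal.ofReal_le_ofReal_iff (by have := hg0 x; positivity)).1 hx
  exact le_of_mul_le_mul_left h3 h2

theorem le_of_ae_le {u : ℝ → ℝ} (hu : ∀ x, ContinuousWithinAt u (Ici x) x) {a b : ℝ}
    (h : ∀ᵐ x ∂(volume.restrict (Ioo a b)), 0 ≤ u x) {x : ℝ} (hax : a ≤ x) (hxb : x < b) :
    0 ≤ u x := by
  by_contra hneg
  push Not at hneg
  have h1 : ∀ᶠ y in 𝓝[≥] x, u y < 0 := (hu x).eventually (Iio_mem_nhds hneg)
  obtain ⟨δ, hδ, hsub⟩ := (mem_nhdsGE_iff_exists_Ico_subset).1 h1
  rw [ae_restrict_iff' measurableSet_Ioo] at h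
  have hz : volume (Ioo x (min δ b)) = 0 := by
    refine measure_mono_null ?_ (ae_iff.1 h)
    intro y hy
    simp only [mem_Ioo, lt_min_iff] at hy
    simp only [mem_ofPred_eq, Classical.not_imp, not_le, mem_Ioo]
    exact ⟨⟨by linarith [hy.1], hy.2.2⟩, hsub ⟨hy.1.le, hy.2.1⟩⟩
  rw [Real.volume_Ioo, ENNReal.ofReal_eq_zero] at hz
  have : x < min δ b := lt_min hδ hxb
  linarith

theorem rc_pow (hf : ∀ x, ContinuousWithinAt f (Ici x) x) (k : ℕ) (C : ℝ) :
    ∀ x, ContinuousWithinAt (fun x => C * f x ^ k) (Ici x) x :=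
  fun x => ((hf x).pow k).const_mul C

/-- From an inequality of the measures to a pointwise inequality. -/
theorem le_of_D_le {C b : ℝ} (hC : 0 ≤ C) (hf : Measurable f) (hg : Measurable g)
    (hg0 : ∀ x, 0 ≤ g x) (rf : ∀ x, ContinuousWithinAt f (Ici x) x)
    (rg : ∀ x, ContinuousWithinAt g (Ici x) x)
    (h : ∀ A, MeasurableSet A → A ⊆ Iio b → D c f A ≤ ENNReal.ofReal C * D c g A) :
    ∀ x, 0 < x → x < b → f x ≤ C * g x := by
  intro x hx hxb
  have h1 := ae_le_of_D_le hC hf hg hg0 h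
  have h2 : ∀ᵐ x ∂(volume.restrict (Ioo 0 b)), 0 ≤ C * g x - f x := by
    filter_upwards [h1] with y hy; linarith
  have := le_of_ae_le (u := fun x => C * g x - f x) (fun y => ((rg y).const_mul C).sub (rf y)) h2
    hx.le hxb
  linarith

end density

section titchmarsh

theorem eq_of_bounded {b' : ℝ} (hb' : 0 < b') {α β : Measure ℝ} [IsFiniteMeasure α]
    [IsFiniteMeasure β] (hα : ∀ᵐ x ∂α, 0 ≤ x ∧ x < b') (hβ : ∀ᵐ x ∂β, 0 ≤ x ∧ x < b') {C : ℝ}
    (h : ∀ s : ℝ, 0 ≤ s →
      |mgf (fun x => b' - x) α s - mgf (fun x => b' - x) β s| ≤ C) : α = β := by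
  set X : ℝ → ℝ := fun x => b' - x with hX
  have gen : ∀ (μ : Measure ℝ) [IsFiniteMeasure μ], (∀ᵐ x ∂μ, 0 ≤ x ∧ x < b') →
      Differentiable ℂ (complexMGF X μ) ∧
      (∀ t : ℝ, t ≤ 0 → mgf X μ t ≤ μ.real univ) ∧
      (∀ t : ℝ, 0 ≤ t → mgf X μ t ≤ Real.exp (b' * t) * μ.real univ) ∧
      Tendsto (fun n : ℕ => mgf X μ (-(n:ℝ))) atTop (𝓝 0) := by
    intro μ _ hμ
    have hint : ∀ t : ℝ, Integrable (fun x => Real.exp (t * X x)) μ := by
      intro t
      apply Integrable.of_bound (C := Real.exp (|t| * b'))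
      · exact (by fun_prop : Measurable fun x : ℝ => Real.exp (t * X x)).aestronglyMeasurable
      · filter_upwards [hμ] with x hx
        rw [Real.norm_of_nonneg (Real.exp_pos _).le]
        apply Real.exp_le_exp.2
        have h1 : X x = b' - x := rfl
        calc t * X x ≤ |t| * X x := mul_le_mul_of_nonneg_right (le_abs_self t) (by rw [h1]; linarith)
          _ ≤ |t| * b' := mul_le_mul_of_nonneg_left (by rw [h1]; linarith) (abs_nonneg t)
    refine ⟨?_, ?_, ?_, ?_⟩
    · have hset : integrableExpSet X μ = univ := by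
        ext t; simp only [mem_univ, iff_true]; exact hint t
      intro z
      apply AnalyticAt.differentiableAt
      apply analyticOnNhd_complexMGF (X := X) (μ := μ)
      simp [hset]
    · intro t ht
      have : mgf X μ t ≤ ∫ _, (1:ℝ) ∂μ := by
        apply integral_mono_ae (hint t) (integrable_const _)
        filter_upwards [hμ] with x hx
        rw [← Real.exp_zero]
        apply Real.exp_le_exp.2
        exact mul_nonpos_of_nonpos_of_nonneg ht (by simp only [hX]; linarith)
      simpa using this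
    · intro t ht
      have : mgf X μ t ≤ ∫ _, Real.exp (b' * t) ∂μ := by
        apply integral_mono_ae (hint t) (integrable_const _)
        filter_upwards [hμ] with x hx
        apply Real.exp_le_exp.2
        simp only [hX]
        nlinarith
      rw [integral_const, smul_eq_mul, mul_comm] at this
      exact this
    · have : Tendsto (fun n : ℕ => ∫ x, Real.exp (-(n:ℝ) * X x) ∂μ) atTop (𝓝 (∫ _, (0:ℝ) ∂μ)) := by
        apply tendsto_integral_of_dominated_convergence (fun _ => (1:ℝ))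
        · intro n
          exact (by fun_prop : Measurable fun x : ℝ =>
            Real.exp (-(n:ℝ) * X x)).aestronglyMeasurable
        · exact integrable_const _
        · intro n
          filter_upwards [hμ] with x hx
          rw [Real.norm_of_nonneg (Real.exp_pos _).le, ← Real.exp_zero]
          apply Real.exp_le_exp.2
          have h1 : (0:ℝ) ≤ n := Nat.cast_nonneg n
          exact mul_nonpos_of_nonpos_of_nonneg (by linarith) (by simp only [hX]; linarith)
        · filter_upwards [hμ] with x hx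
          have h1 : 0 < X x := by simp only [hX]; linarith
          apply Real.tendsto_exp_atBot.comp
          have h2 : Tendsto (fun n : ℕ => (n:ℝ) * X x) atTop atTop :=
            tendsto_natCast_atTop_atTop.atTop_mul_const h1
          have h3 := tendsto_neg_atTop_atBot.comp h2
          refine h3.congr fun n => ?_
          simp
      simpa [mgf] using this
  obtain ⟨dα, lα, rα, tα⟩ := gen α hα
  obtain ⟨dβ, lβ, rβ, tβ⟩ := gen β hβ
  set M : ℝ := α.real univ + β.real univ with hM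
  have hM0 : 0 ≤ M := add_nonneg measureReal_nonneg measureReal_nonneg
  set f : ℂ → ℂ := fun z => complexMGF X α z - complexMGF X β z with hf
  have hfn : ∀ z : ℂ, ‖f z‖ ≤ mgf X α z.re + mgf X β z.re := fun z =>
    (norm_sub_le _ _).trans (add_le_add norm_complexMGF_le_mgf norm_complexMGF_le_mgf)
  have hleft : ∀ z : ℂ, z.re ≤ 0 → ‖f z‖ ≤ M := fun z hz =>
    (hfn z).trans (add_le_add (lα _ hz) (lβ _ hz))
  have hd : Differentiable ℂ f := dα.sub dβ
  have hright : ∀ z : ℂ, 0 ≤ z.re → ‖f z‖ ≤ M := by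
    intro z hz
    apply PhragmenLindelof.right_half_plane_of_bounded_on_real (f := f) hd.diffContOnCl _ _ _ hz
    · refine ⟨1, by norm_num, b', ?_⟩
      apply Asymptotics.IsBigO.of_bound M
      apply Filter.eventually_inf_principal.2
      apply Filter.Eventually.of_forall
      intro w hw
      have hw' : 0 < w.re := hw
      rw [Real.norm_of_nonneg (Real.exp_pos _).le, Real.rpow_one]
      have h1 : ‖f w‖ ≤ Real.exp (b' * w.re) * M := by
        refine (hfn w).trans ?_
        rw [hM, mul_add]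
        exact add_le_add (rα _ hw'.le) (rβ _ hw'.le)
      refine h1.trans ?_
      rw [mul_comm]
      apply mul_le_mul_of_nonneg_left _ hM0
      apply Real.exp_le_exp.2
      exact mul_le_mul_of_nonneg_left (Complex.re_le_norm w) hb'.le
    · refine ⟨C, ?_⟩
      rw [Filter.eventually_map]
      filter_upwards [Filter.eventually_ge_atTop (0:ℝ)] with s hs
      have h1 : f (s:ℂ) = ((mgf X α s - mgf X β s : ℝ) : ℂ) := by
        simp only [hf]
        rw [complexMGF_ofReal, complexMGF_ofReal]; push_cast; rfl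
      rw [h1, Complex.norm_real, Real.norm_eq_abs]
      exact h s hs
    · intro x
      exact hleft _ (by simp)
  have hall : ∀ z : ℂ, ‖f z‖ ≤ M := fun z => by
    rcases le_total z.re 0 with hz | hz
    · exact hleft z hz
    · exact hright z hz
  have hb : Bornology.IsBounded (range f) := by
    rw [isBounded_iff_forall_norm_le]
    exact ⟨M, by rintro _ ⟨z, rfl⟩; exact hall z⟩
  have hconst : ∀ z w : ℂ, f z = f w := fun z w => hd.apply_eq_apply_of_bounded hb z w
  have hlim : Tendsto (fun n : ℕ => f ((-(n:ℝ) : ℝ) : ℂ)) atTop (𝓝 0) := by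
    have h1 : ∀ n : ℕ, f ((-(n:ℝ) : ℝ) : ℂ) = ((mgf X α (-(n:ℝ)) - mgf X β (-(n:ℝ)) : ℝ) : ℂ) := by
      intro n
      simp only [hf]
      rw [complexMGF_ofReal, complexMGF_ofReal]; push_cast; rfl
    simp_rw [h1]
    have h2 : Tendsto (fun n : ℕ => mgf X α (-(n:ℝ)) - mgf X β (-(n:ℝ))) atTop (𝓝 0) := by
      simpa using tα.sub tβ
    have h3 := (Complex.continuous_ofReal.tendsto 0).comp h2
    rw [Complex.ofReal_zero] at h3
    exact h3
  have hzero : ∀ z : ℂ, f z = 0 := by
    intro z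
    have h1 : Tendsto (fun n : ℕ => f z) atTop (𝓝 0) := hlim.congr fun n => hconst _ _
    exact tendsto_nhds_unique tendsto_const_nhds h1
  have hmeas : Measurable X := by fun_prop
  have hmap : α.map X = β.map X := by
    apply Measure.ext_of_complexMGF_eq hmeas.aemeasurable hmeas.aemeasurable
    funext z
    exact sub_eq_zero.1 (hzero z)
  have hXX : X ∘ X = id := by funext x; simp [hX]
  have h1 : (α.map X).map X = (β.map X).map X := by rw [hmap]
  rwa [Measure.map_map hmeas hmeas, Measure.map_map hmeas hmeas, hXX, Measure.map_id,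
    Measure.map_id] at h1

/-- Laplace transform of a measure. -/
noncomputable def L (μ : Measure ℝ) (s : ℝ) : ℝ := ∫ x, Real.exp (-s * x) ∂μ

theorem L_int {μ : Measure ℝ} [IsFiniteMeasure μ] (hμ : μ (Iio 0) = 0) {s : ℝ} (hs : 0 ≤ s) :
    Integrable (fun x => Real.exp (-s * x)) μ := by
  apply Integrable.of_bound (C := 1)
  · exact (by fun_prop : Measurable fun x : ℝ => Real.exp (-s * x)).aestronglyMeasurable
  · have hae : ∀ᵐ x ∂μ, 0 ≤ x := by
      rw [ae_iff]; simpa [Iio_def] using hμ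
    filter_upwards [hae] with x hx
    rw [Real.norm_of_nonneg (Real.exp_pos _).le, ← Real.exp_zero]
    apply Real.exp_le_exp.2
    nlinarith

theorem L_conv {μ ν : Measure ℝ} [SFinite μ] [SFinite ν] (s : ℝ) :
    L (μ ∗ ν) s = L μ s * L ν s := mgf_conv' (-s)

theorem L_split {μ : Measure ℝ} [IsFiniteMeasure μ] (hμ : μ (Iio 0) = 0) {s : ℝ} (hs : 0 ≤ s)
    (c : ℝ) : L μ s = L (μ.restrict (Iio c)) s + L (μ.restrict (Ici c)) s := by
  have h := integral_add_compl (measurableSet_Iio (a := c)) (L_int hμ hs)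
  rw [compl_Iio] at h
  exact h.symm

theorem L_nonneg (μ : Measure ℝ) (s : ℝ) : 0 ≤ L μ s :=
  integral_nonneg fun _ => (Real.exp_pos _).le

theorem L_tail {μ : Measure ℝ} [IsFiniteMeasure μ] (hμ : μ (Iio 0) = 0) {s : ℝ} (hs : 0 ≤ s)
    (c : ℝ) : L (μ.restrict (Ici c)) s ≤ Real.exp (-s * c) * μ.real univ := by
  have h1 : L (μ.restrict (Ici c)) s ≤ ∫ x in Ici c, Real.exp (-s * c) ∂μ := by
    apply setIntegral_mono_on (L_int hμ hs).integrableOn (integrable_const _).integrableOn
      measurableSet_Ici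
    intro x hx
    apply Real.exp_le_exp.2
    have : c ≤ x := hx
    nlinarith
  refine h1.trans ?_
  rw [setIntegral_const, smul_eq_mul, mul_comm]
  exact mul_le_mul_of_nonneg_left (measureReal_mono (subset_univ _)) (Real.exp_pos _).le

theorem L_lower {μ : Measure ℝ} [IsFiniteMeasure μ] (hμ : μ (Iio 0) = 0) {s : ℝ} (hs : 0 ≤ s)
    (c : ℝ) : Real.exp (-s * c) * μ.real (Iio c) ≤ L μ s := by
  rw [L_split hμ hs c]
  have h1 : ∫ x in Iio c, Real.exp (-s * c) ∂μ ≤ L (μ.restrict (Iio c)) s := by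
    apply setIntegral_mono_on (integrable_const _).integrableOn (L_int hμ hs).integrableOn
      measurableSet_Iio
    intro x hx
    apply Real.exp_le_exp.2
    have : x < c := hx
    nlinarith
  rw [setIntegral_const, smul_eq_mul, mul_comm] at h1
  linarith [L_nonneg (μ.restrict (Ici c)) s]

/-- Cancellation of a positive factor in a local convolution identity. -/
theorem cancel {b : ℝ} {ν α β : Measure ℝ} [IsFiniteMeasure ν] [IsFiniteMeasure α]
    [IsFiniteMeasure β] (hν0 : ν (Iio 0) = 0) (hα0 : α (Iio 0) = 0) (hβ0 : β (Iio 0) = 0)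
    (hν : ∀ δ, 0 < δ → ν (Iio δ) ≠ 0)
    (h : ∀ A, MeasurableSet A → A ⊆ Iio b → (ν ∗ α) A = (ν ∗ β) A) :
    ∀ A, MeasurableSet A → A ⊆ Iio b → α A = β A := by
  have czero : ∀ γ : Measure ℝ, IsFiniteMeasure γ → γ (Iio 0) = 0 → (ν ∗ γ) (Iio 0) = 0 := by
    intro γ _ hγ
    have := conv_le ν γ γ (C := 0) ENNReal.zero_ne_top hν0 (b := 0)
      (fun B hB hBs => by
        rw [zero_mul, nonpos_iff_eq_zero]
        exact measure_mono_null (by simpa using hBs) hγ) measurableSet_Iio subset_rfl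
    simpa using this
  have key : ∀ b' : ℝ, b' < b → α.restrict (Iio b') = β.restrict (Iio b') := by
    intro b' hb'b
    rcases le_or_gt b' 0 with hb0 | hb0
    · have e1 : α (Iio b') = 0 := measure_mono_null (Iio_subset_Iio hb0) hα0
      have e2 : β (Iio b') = 0 := measure_mono_null (Iio_subset_Iio hb0) hβ0
      rw [Measure.restrict_eq_zero.2 e1, Measure.restrict_eq_zero.2 e2]
    set δ := b - b' with hδ
    have hδ0 : 0 < δ := by linarith
    set v := ν.real (Iio δ) with hv
    have hv0 : 0 < v := by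
      rw [hv, Measure.real]
      exact ENNReal.toReal_pos (hν δ hδ0) (measure_ne_top _ _)
    set M' := (ν ∗ α).real univ + (ν ∗ β).real univ with hM'
    have hb1 : ∀ s : ℝ, 0 ≤ s → |L α s - L β s| ≤ Real.exp (-s * b') * (M' / v) := by
      intro s hs
      have e1 : L (ν ∗ α) s - L (ν ∗ β) s = L ν s * (L α s - L β s) := by
        rw [L_conv, L_conv]; ring
      have e2 : (ν ∗ α).restrict (Iio b) = (ν ∗ β).restrict (Iio b) := by
        ext A hA
        rw [Measure.restrict_apply hA, Measure.restrict_apply hA]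
        exact h _ (hA.inter measurableSet_Iio) inter_subset_right
      have e3 : |L (ν ∗ α) s - L (ν ∗ β) s| ≤ Real.exp (-s * b) * M' := by
        rw [L_split (czero α inferInstance hα0) hs b, L_split (czero β inferInstance hβ0) hs b, e2]
        have t1 := L_tail (czero α inferInstance hα0) hs b
        have t2 := L_tail (czero β inferInstance hβ0) hs b
        have t3 := L_nonneg ((ν ∗ α).restrict (Ici b)) s
        have t4 := L_nonneg ((ν ∗ β).restrict (Ici b)) s
        rw [hM', mul_add, abs_le]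
        have t5 : 0 ≤ Real.exp (-s * b) * (ν ∗ α).real univ :=
          mul_nonneg (Real.exp_pos _).le measureReal_nonneg
        have t6 : 0 ≤ Real.exp (-s * b) * (ν ∗ β).real univ :=
          mul_nonneg (Real.exp_pos _).le measureReal_nonneg
        constructor <;> linarith
      rw [e1, abs_mul, abs_of_nonneg (L_nonneg ν s)] at e3
      have e4 := L_lower hν0 hs δ
      have e5 : Real.exp (-s * δ) * v * |L α s - L β s| ≤ Real.exp (-s * b) * M' :=
        (mul_le_mul_of_nonneg_right e4 (abs_nonneg _)).trans e3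
      have e6 : Real.exp (-s * b) = Real.exp (-s * δ) * Real.exp (-s * b') := by
        rw [← Real.exp_add]; congr 1; rw [hδ]; ring
      rw [e6] at e5
      have e7 : 0 < Real.exp (-s * δ) := Real.exp_pos _
      have e8 : v * |L α s - L β s| ≤ Real.exp (-s * b') * M' := by
        apply le_of_mul_le_mul_left _ e7
        calc _ = Real.exp (-s * δ) * v * |L α s - L β s| := by ring
          _ ≤ _ := e5
          _ = _ := by ring
      rw [← mul_div_assoc, le_div_iff₀ hv0]
      linarith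
    apply eq_of_bounded hb0 (C := M' / v + (α.real univ + β.real univ))
    · have hae : ∀ᵐ x ∂α, 0 ≤ x := by
        rw [ae_iff]; simpa [Iio_def] using hα0
      rw [ae_restrict_iff' measurableSet_Iio]
      filter_upwards [hae] with x hx hx2
      exact ⟨hx, hx2⟩
    · have hae : ∀ᵐ x ∂β, 0 ≤ x := by
        rw [ae_iff]; simpa [Iio_def] using hβ0
      rw [ae_restrict_iff' measurableSet_Iio]
      filter_upwards [hae] with x hx hx2
      exact ⟨hx, hx2⟩
    · intro s hs
      have conv1 : ∀ μ : Measure ℝ, mgf (fun x => b' - x) μ s = Real.exp (s * b') * L μ s := by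
        intro μ
        unfold mgf L
        rw [← integral_const_mul]
        refine integral_congr_ae (ae_of_all _ fun x => ?_)
        simp only
        rw [← Real.exp_add]; ring_nf
      rw [conv1, conv1, ← mul_sub, abs_mul, abs_of_pos (Real.exp_pos _)]
      have s1 := L_split hα0 hs b'
      have s2 := L_split hβ0 hs b'
      have t1 := L_tail hα0 hs b'
      have t2 := L_tail hβ0 hs b'
      have t3 := L_nonneg (α.restrict (Ici b')) s
      have t4 := L_nonneg (β.restrict (Ici b')) s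
      have hb2 := abs_le.1 (hb1 s hs)
      have e1 : |L (α.restrict (Iio b')) s - L (β.restrict (Iio b')) s|
          ≤ Real.exp (-s * b') * (M' / v + (α.real univ + β.real univ)) := by
        have t5 : 0 ≤ Real.exp (-s * b') * α.real univ :=
          mul_nonneg (Real.exp_pos _).le measureReal_nonneg
        have t6 : 0 ≤ Real.exp (-s * b') * β.real univ :=
          mul_nonneg (Real.exp_pos _).le measureReal_nonneg
        rw [mul_add, mul_add, abs_le]
        constructor <;> linarith [hb2.1, hb2.2]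
      calc Real.exp (s * b') * |L (α.restrict (Iio b')) s - L (β.restrict (Iio b')) s|
          ≤ Real.exp (s * b') * (Real.exp (-s * b') * (M' / v + (α.real univ + β.real univ))) :=
            mul_le_mul_of_nonneg_left e1 (Real.exp_pos _).le
        _ = M' / v + (α.real univ + β.real univ) := by
            rw [← mul_assoc, ← Real.exp_add]; simp
  have hU : (⋃ n : ℕ, Iio (b - 1 / ((n:ℝ) + 1))) = Iio b := by
    ext x
    simp only [mem_iUnion, mem_Iio]
    constructor
    · rintro ⟨n, hn⟩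
      have : (0:ℝ) < 1 / ((n:ℝ) + 1) := by positivity
      linarith
    · intro hx
      obtain ⟨n, hn⟩ := exists_nat_one_div_lt (sub_pos.2 hx)
      exact ⟨n, by linarith⟩
  have hall : α.restrict (Iio b) = β.restrict (Iio b) := by
    rw [← hU, Measure.restrict_iUnion_congr]
    intro n
    apply key
    have : (0:ℝ) < 1 / ((n:ℝ) + 1) := by positivity
    linarith
  intro A hA hAb
  have h1 := congrArg (fun m : Measure ℝ => m A) hall
  rwa [Measure.restrict_apply hA, Measure.restrict_apply hA, inter_eq_left.2 hAb] at h1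

end titchmarsh

section compare

/-- Distribution-type functions. -/
structure Nice (φ : ℝ → ℝ) : Prop where
  mono : Monotone φ
  rc : ∀ x, ContinuousWithinAt φ (Ici x) x
  nonneg : ∀ x, 0 ≤ φ x
  le_one : ∀ x, φ x ≤ 1

variable {c ε τ : ℝ} {N : ℕ} {P : Measure ℝ} {φ ψ : ℝ → ℝ}

theorem Nice.meas_pow (h : Nice φ) (k : ℕ) : Measurable (fun x => φ x ^ k) :=
  h.mono.measurable.pow_const k

theorem Nice.pow_nonneg (h : Nice φ) (k : ℕ) (x : ℝ) : 0 ≤ φ x ^ k := _root_.pow_nonneg (h.nonneg x) k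

theorem Nice.pow_le_one (h : Nice φ) (k : ℕ) (x : ℝ) : φ x ^ k ≤ 1 :=
  pow_le_one₀ (h.nonneg x) (h.le_one x)

theorem Nice.rc_pow (h : Nice φ) (k : ℕ) (x : ℝ) :
    ContinuousWithinAt (fun x => φ x ^ k) (Ici x) x := (h.rc x).pow k

/-- The local identity `φ ^ N = P * φ ^ (N - 1)` on `(-∞,ε)`, with the exponential weights. -/
def Loc (c ε : ℝ) (N : ℕ) (P : Measure ℝ) (φ : ℝ → ℝ) : Prop :=
  ∀ A, MeasurableSet A → A ⊆ Iio ε →
    D c (fun x => φ x ^ N) A = (P ∗ D c (fun x => φ x ^ (N - 1))) A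

theorem local_compare (hN : 2 ≤ N) [IsFiniteMeasure P] (hc : 0 < c)
    (hτ : 0 < τ) (hP : P (Iio 0) = 0) (hφ : Nice φ) (hψ : Nice ψ)
    (φτ : ∀ x ≤ τ, φ x = 0) (ψpos : ∀ x, 0 < x → 0 < ψ x)
    (idφ : Loc c ε N P φ) (idψ : Loc c ε N P ψ) :
    ∀ x, 0 < x → x < ε → φ x ≤ ψ x := by
  have i1 : IsFiniteMeasure (D c (fun x => φ x ^ (N - 1))) :=
    isFinite_D hc (hφ.meas_pow _) (hφ.pow_nonneg _) (hφ.pow_le_one _)
  have i2 : IsFiniteMeasure (D c (fun x => ψ x ^ (N - 1))) :=
    isFinite_D hc (hψ.meas_pow _) (hψ.pow_nonneg _) (hψ.pow_le_one _)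
  have step : ∀ M : ℝ, 0 ≤ M → (∀ x, 0 < x → x < ε → φ x ≤ M * ψ x) →
      ∀ x, 0 < x → x < ε → φ x ^ N ≤ M ^ (N - 1) * ψ x ^ N := by
    intro M hM h
    apply le_of_D_le (c := c) (_root_.pow_nonneg hM _) (hφ.meas_pow N) (hψ.meas_pow N)
      (hψ.pow_nonneg N) (hφ.rc_pow N) (hψ.rc_pow N)
    intro A hA hAb
    rw [idφ A hA hAb, idψ A hA hAb]
    refine conv_le P _ _ ENNReal.ofReal_ne_top hP ?_ hA hAb
    intro B hB hBs
    refine D_le_of_le (_root_.pow_nonneg hM _) ?_ hB hBs
    intro x hx hxe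
    rw [← mul_pow]
    exact pow_le_pow_left₀ (hφ.nonneg x) (h x hx (by linarith)) _
  set S : Set ℝ := {M | 0 ≤ M ∧ ∀ x, 0 < x → x < ε → φ x ≤ M * ψ x} with hS
  have hne : (1 / ψ τ) ∈ S := by
    refine ⟨(one_div_pos.2 (ψpos τ hτ)).le, fun x hx _ => ?_⟩
    rcases le_or_gt x τ with h | h
    · rw [φτ x h]
      exact mul_nonneg (one_div_pos.2 (ψpos τ hτ)).le (hψ.nonneg x)
    · have h1 := ψpos τ hτ
      have h2 := hψ.mono h.le
      have h3 : 1 ≤ 1 / ψ τ * ψ x := by
        rw [one_div, inv_mul_eq_div, le_div_iff₀ h1]; linarith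
      exact (hφ.le_one x).trans h3
  have hbdd : BddBelow S := ⟨0, fun M hM => hM.1⟩
  have hmem : sInf S ∈ S := by
    refine ⟨le_csInf ⟨_, hne⟩ fun M hM => hM.1, fun x hx hxe => ?_⟩
    have h1 : φ x / ψ x ≤ sInf S := by
      apply le_csInf ⟨_, hne⟩
      intro M hM
      rw [div_le_iff₀ (ψpos x hx)]
      exact hM.2 x hx hxe
    rwa [div_le_iff₀ (ψpos x hx)] at h1
  have h0 : 0 ≤ sInf S := hmem.1
  set r : ℝ := (sInf S ^ (N - 1)) ^ ((N : ℝ)⁻¹) with hr
  have hr0 : 0 ≤ r := Real.rpow_nonneg (_root_.pow_nonneg h0 _) _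
  have hrN : r ^ N = sInf S ^ (N - 1) :=
    Real.rpow_inv_natCast_pow (_root_.pow_nonneg h0 _) (by omega)
  have hrS : r ∈ S := by
    refine ⟨hr0, fun x hx hxe => ?_⟩
    have h1 := step _ h0 hmem.2 x hx hxe
    rw [← hrN, ← mul_pow] at h1
    exact (pow_le_pow_iff_left₀ (hφ.nonneg x) (mul_nonneg hr0 (hψ.nonneg x)) (by omega)).1 h1
  have hle : sInf S ≤ r := csInf_le hbdd hrS
  have h1 : sInf S ≤ 1 := by
    by_contra hcon
    push Not at hcon
    have h2 : sInf S ^ N ≤ sInf S ^ (N - 1) := by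
      rw [← hrN]; exact pow_le_pow_left₀ h0 hle _
    have h3 : sInf S ^ (N - 1) < sInf S ^ N := pow_lt_pow_right₀ hcon (by omega)
    linarith
  intro x hx hxe
  have h2 := hmem.2 x hx hxe
  have h3 := hψ.nonneg x
  nlinarith

end compare

section continuation

variable {c ε a δ c₁ : ℝ} {N : ℕ} {P : Measure ℝ} {φ ψ : ℝ → ℝ} {f g : ℝ → ℝ}

theorem D_mono_on {A : Set ℝ} (hA : MeasurableSet A) (h : ∀ x ∈ A, f x ≤ g x) :
    D c f A ≤ D c g A := by
  rw [D_apply hA, D_apply hA]
  apply setLIntegral_mono_ae' (hA.inter measurableSet_Ioi)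
  refine ae_of_all _ fun x hx => ?_
  apply ENNReal.ofReal_le_ofReal
  exact mul_le_mul_of_nonneg_left (h x hx.1) (Real.exp_pos _).le

theorem D_add (hf : Measurable f) (f0 : ∀ x, 0 ≤ f x) (g0 : ∀ x, 0 ≤ g x) :
    D c (fun x => f x + g x) = D c f + D c g := by
  ext A hA
  rw [Measure.add_apply, D_apply hA, D_apply hA, D_apply hA, ← lintegral_add_left (by fun_prop)]
  refine lintegral_congr fun x => ?_
  rw [mul_add, ENNReal.ofReal_add (mul_nonneg (Real.exp_pos _).le (f0 x))
    (mul_nonneg (Real.exp_pos _).le (g0 x))]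

/-- The difference of the powers. -/
noncomputable def U (φ ψ : ℝ → ℝ) (k : ℕ) (x : ℝ) : ℝ := |φ x ^ k - ψ x ^ k|

theorem U_nonneg (k : ℕ) (x : ℝ) : 0 ≤ U φ ψ k x := abs_nonneg _

theorem U_comm (k : ℕ) : U φ ψ k = U ψ φ k := by
  funext x; exact abs_sub_comm _ _

theorem U_le_one (hφ : Nice φ) (hψ : Nice ψ) (k : ℕ) (x : ℝ) : U φ ψ k x ≤ 1 := by
  unfold U
  rw [abs_le]
  constructor <;> linarith [hφ.pow_nonneg k x, hψ.pow_nonneg k x, hφ.pow_le_one k x,
    hψ.pow_le_one k x]

theorem U_meas (hφ : Nice φ) (hψ : Nice ψ) (k : ℕ) : Measurable (U φ ψ k) := by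
  unfold U
  exact ((hφ.meas_pow k).sub (hψ.meas_pow k)).abs

theorem conv_diff (hφ : Nice φ) (hψ : Nice ψ) (hc : 0 < c) [IsFiniteMeasure P]
    (hP : P (Iio 0) = 0) (k : ℕ) {b : ℝ} {A : Set ℝ} (hA : MeasurableSet A) (hAb : A ⊆ Iio b) :
    (P ∗ D c (fun x => φ x ^ k)) A
      ≤ (P ∗ D c (fun x => ψ x ^ k)) A + (P ∗ D c (U φ ψ k)) A := by
  have i1 : IsFiniteMeasure (D c (fun x => φ x ^ k)) :=
    isFinite_D hc (hφ.meas_pow _) (hφ.pow_nonneg _) (hφ.pow_le_one _)
  have i2 : IsFiniteMeasure (D c (fun x => ψ x ^ k)) :=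
    isFinite_D hc (hψ.meas_pow _) (hψ.pow_nonneg _) (hψ.pow_le_one _)
  have i3 : IsFiniteMeasure (D c (U φ ψ k)) :=
    isFinite_D hc (U_meas hφ hψ k) (U_nonneg k) (U_le_one hφ hψ k)
  rw [← Measure.add_apply, ← Measure.conv_add]
  have h := conv_le P (D c (fun x => φ x ^ k)) (D c (fun x => ψ x ^ k) + D c (U φ ψ k))
    (C := 1) ENNReal.one_ne_top hP (b := b) (fun B hB _ => by
      rw [one_mul, ← D_add (hψ.meas_pow k) (hψ.pow_nonneg k) (U_nonneg k)]
      apply D_mono_on hB
      intro x _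
      have := le_abs_self (φ x ^ k - ψ x ^ k)
      simp only [U]
      linarith) hA hAb
  simpa using h

/-- The swapped identity on `(-∞,b)`. -/
def Swap (c b : ℝ) (N : ℕ) (P : Measure ℝ) (φ ψ : ℝ → ℝ) : Prop :=
  ∀ A, MeasurableSet A → A ⊆ Iio b →
    D c (fun x => φ x ^ N) A + (P ∗ D c (fun x => ψ x ^ (N - 1))) A
      = D c (fun x => ψ x ^ N) A + (P ∗ D c (fun x => φ x ^ (N - 1))) A

theorem main_diff_half (hφ : Nice φ) (hψ : Nice ψ) (hc : 0 < c) [IsFiniteMeasure P]
    (hP : P (Iio 0) = 0) (hS : Swap c (a + δ) N P φ ψ) {A : Set ℝ} (hA : MeasurableSet A)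
    (hAb : A ⊆ Iio (a + δ)) :
    D c (fun x => φ x ^ N) A ≤ D c (fun x => ψ x ^ N) A + (P ∗ D c (U φ ψ (N - 1))) A := by
  have i2 : IsFiniteMeasure (D c (fun x => ψ x ^ (N - 1))) :=
    isFinite_D hc (hψ.meas_pow _) (hψ.pow_nonneg _) (hψ.pow_le_one _)
  have h3 := conv_diff hφ hψ hc hP (N - 1) hA hAb
  have hfin : (P ∗ D c (fun x => ψ x ^ (N - 1))) A ≠ ∞ := measure_ne_top _ _
  rw [← ENNReal.add_le_add_iff_right hfin, hS A hA hAb]
  calc D c (fun x => ψ x ^ N) A + (P ∗ D c (fun x => φ x ^ (N - 1))) A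
      ≤ D c (fun x => ψ x ^ N) A + ((P ∗ D c (fun x => ψ x ^ (N - 1))) A
        + (P ∗ D c (U φ ψ (N - 1))) A) := by gcongr
    _ = _ := by ring

theorem half_diff (hφ : Nice φ) (hψ : Nice ψ) (hc : 0 < c) {A : Set ℝ} (hA : MeasurableSet A)
    {q : ℝ≥0∞} (hord : ∀ x ∈ A, ψ x ≤ φ x)
    (h : D c (fun x => φ x ^ N) A ≤ D c (fun x => ψ x ^ N) A + q) :
    D c (U φ ψ N) A ≤ q := by
  have i2 : IsFiniteMeasure (D c (fun x => ψ x ^ N)) :=
    isFinite_D hc (hψ.meas_pow _) (hψ.pow_nonneg _) (hψ.pow_le_one _)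
  have h1 : D c (fun x => ψ x ^ N) A + D c (U φ ψ N) A ≤ D c (fun x => φ x ^ N) A := by
    rw [← Measure.add_apply, ← D_add (hψ.meas_pow N) (hψ.pow_nonneg N) (U_nonneg N)]
    apply D_mono_on hA
    intro x hx
    have h2 : ψ x ^ N ≤ φ x ^ N := pow_le_pow_left₀ (hψ.nonneg x) (hord x hx) _
    simp only [U]
    rw [abs_of_nonneg (by linarith)]; linarith
  have h2 := h1.trans h
  exact (ENNReal.add_le_add_iff_left (measure_ne_top _ _)).1 h2

theorem Swap.symm {b : ℝ} (h : Swap c b N P φ ψ) : Swap c b N P ψ φ := fun A hA hAb =>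
  (h A hA hAb).symm

theorem main_diff (hφ : Nice φ) (hψ : Nice ψ) (hc : 0 < c) [IsFiniteMeasure P]
    (hP : P (Iio 0) = 0) (hS : Swap c (a + δ) N P φ ψ) {A : Set ℝ} (hA : MeasurableSet A)
    (hAb : A ⊆ Iio (a + δ)) :
    D c (U φ ψ N) A ≤ (P ∗ D c (U φ ψ (N - 1))) A := by
  have hm : MeasurableSet {x | ψ x ≤ φ x} :=
    measurableSet_le hψ.mono.measurable hφ.mono.measurable
  rw [← measure_inter_add_sdiff A hm, ← measure_inter_add_sdiff (μ := P ∗ D c (U φ ψ (N - 1))) A hm]
  apply add_le_add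
  · apply half_diff hφ hψ hc (hA.inter hm) (fun x hx => hx.2)
    exact main_diff_half hφ hψ hc hP hS (hA.inter hm) (fun x hx => hAb hx.1)
  · rw [U_comm N, U_comm (N - 1)]
    apply half_diff hψ hφ hc (hA.diff hm) (fun x hx => ?_)
    · exact main_diff_half hψ hφ hc hP hS.symm (hA.diff hm)
        (fun x hx => hAb hx.1)
    · have := hx.2
      simp only [mem_ofPred_eq, not_le] at this
      exact this.le

theorem continuation_step (hN : 2 ≤ N) (hφ : Nice φ) (hψ : Nice ψ) (hc : 0 < c)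
    [IsFiniteMeasure P] (hP : P (Iio 0) = 0) (ha : 0 < a) (hc₁ : 0 < c₁) (hφ₁ : ∀ x, a ≤ x → c₁ ≤ φ x)
    (hψ₁ : ∀ x, a ≤ x → c₁ ≤ ψ x) (hPδ : P (Iic δ) < ENNReal.ofReal c₁)
    (heq : ∀ x < a, φ x = ψ x) (hS : Swap c (a + δ) N P φ ψ) : ∀ x < a + δ, φ x = ψ x := by
  have i3 : IsFiniteMeasure (D c (U φ ψ (N - 1))) :=
    isFinite_D hc (U_meas hφ hψ _) (U_nonneg _) (U_le_one hφ hψ _)
  set u := D c (U φ ψ (N - 1)) with hu
  have hzero : ∀ B, MeasurableSet B → B ⊆ Iio a → u B = 0 := by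
    intro B hB hBa
    have h1 : D c (U φ ψ (N - 1)) B ≤ D c (fun _ => (0:ℝ)) B := by
      apply D_mono_on hB
      intro x hx
      have : φ x = ψ x := heq x (hBa hx)
      simp [U, this]
    have h2 : D c (fun _ => (0:ℝ)) B = 0 := by rw [D_apply hB]; simp
    rw [h2] at h1
    exact le_antisymm h1 (zero_le)
  have hA : MeasurableSet (Iio (a + δ)) := measurableSet_Iio
  have h1 := main_diff hφ hψ hc hP hS hA subset_rfl
  have h2 : (P ∗ u) (Iio (a + δ)) ≤ P (Iic δ) * u (Iio (a + δ)) := by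
    rw [conv_apply' P u hA]
    have h3 : ∫⁻ x, (Iic δ).indicator (fun _ => u (Iio (a + δ))) x ∂P
        = P (Iic δ) * u (Iio (a + δ)) := by
      rw [lintegral_indicator measurableSet_Iic, setLIntegral_const, mul_comm]
    rw [← h3]
    apply lintegral_mono_ae
    have hae : ∀ᵐ x ∂P, 0 ≤ x := by
      rw [ae_iff]; simpa [Iio_def] using hP
    filter_upwards [hae] with x hx
    by_cases hxδ : x ≤ δ
    · rw [indicator_of_mem (by exact hxδ)]
      apply measure_mono
      intro y hy
      have : x + y < a + δ := hy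
      simp only [mem_Iio]; linarith
    · rw [indicator_of_notMem (by exact hxδ)]
      push Not at hxδ
      refine (hzero _ ((measurable_const_add x) hA) ?_).le
      intro y hy
      have : x + y < a + δ := hy
      simp only [mem_Iio]; linarith
  have h3 : u (Iio (a + δ)) ≤ ENNReal.ofReal (1 / c₁) * D c (U φ ψ N) (Iio (a + δ)) := by
    apply D_le_of_le (by positivity) _ hA subset_rfl
    intro x hx _
    rcases lt_or_ge x a with hxa | hxa
    · have : φ x = ψ x := heq x hxa
      simp [U, this]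
    · rw [one_div, inv_mul_eq_div, le_div_iff₀ hc₁]
      have hN1 : N = (N - 1) + 1 := by omega
      have key : ∀ p q : ℝ, c₁ ≤ p → c₁ ≤ q → q ≤ p → 
          |p ^ (N - 1) - q ^ (N - 1)| * c₁ ≤ |p ^ N - q ^ N| := by
        intro p q hp hq hqp
        have hp0 : 0 ≤ p := by linarith
        have hq0 : 0 ≤ q := by linarith
        have e1 : q ^ (N - 1) ≤ p ^ (N - 1) := pow_le_pow_left₀ hq0 hqp _
        have e2 : q ^ N ≤ p ^ N := pow_le_pow_left₀ hq0 hqp _
        rw [abs_of_nonneg (by linarith), abs_of_nonneg (by linarith)]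
        have e3 : p ^ N = p ^ (N - 1) * p := by conv_lhs => rw [hN1, pow_succ]
        have e4 : q ^ N = q ^ (N - 1) * q := by conv_lhs => rw [hN1, pow_succ]
        rw [e3, e4]
        have e5 : 0 ≤ p ^ (N - 1) := _root_.pow_nonneg hp0 _
        nlinarith [mul_nonneg e5 (sub_nonneg.2 hqp), mul_nonneg (sub_nonneg.2 e1) (sub_nonneg.2 hq)]
      rcases le_total (ψ x) (φ x) with h | h
      · exact key _ _ (hφ₁ x hxa) (hψ₁ x hxa) h
      · have := key _ _ (hψ₁ x hxa) (hφ₁ x hxa) h
        simp only [U]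
        rw [abs_sub_comm (φ x ^ (N - 1)), abs_sub_comm (φ x ^ N)]
        exact this
  have h4 : u (Iio (a + δ)) = 0 := by
    by_contra hne
    have hfin : u (Iio (a + δ)) ≠ ∞ := measure_ne_top _ _
    have h5 : u (Iio (a + δ)) ≤ ENNReal.ofReal (1 / c₁) * P (Iic δ) * u (Iio (a + δ)) := by
      calc _ ≤ _ := h3
        _ ≤ ENNReal.ofReal (1 / c₁) * (P (Iic δ) * u (Iio (a + δ))) := by
            gcongr; exact h1.trans h2
        _ = _ := by ring
    have h6 : ENNReal.ofReal (1 / c₁) * P (Iic δ) < 1 := by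
      have e1 : ENNReal.ofReal (1 / c₁) ≠ 0 := by
        rw [ne_eq, ENNReal.ofReal_eq_zero, not_le]; positivity
      calc ENNReal.ofReal (1 / c₁) * P (Iic δ) < ENNReal.ofReal (1 / c₁) * ENNReal.ofReal c₁ :=
            (ENNReal.mul_lt_mul_iff_right e1 ENNReal.ofReal_ne_top).2 hPδ
        _ = 1 := by
            rw [← ENNReal.ofReal_mul (by positivity), one_div, inv_mul_cancel₀ hc₁.ne',
              ENNReal.ofReal_one]
    have h7 : ENNReal.ofReal (1 / c₁) * P (Iic δ) * u (Iio (a + δ)) < 1 * u (Iio (a + δ)) :=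
      (ENNReal.mul_lt_mul_iff_left hne hfin).2 h6
    rw [one_mul] at h7
    exact absurd h5 (not_le.2 h7)
  have h5 : ∀ x, 0 < x → x < a + δ → U φ ψ (N - 1) x ≤ 0 * (fun _ => (1:ℝ)) x := by
    apply le_of_D_le (c := c) le_rfl (U_meas hφ hψ _) measurable_const (fun _ => zero_le_one)
    · intro x
      exact ((hφ.rc_pow _ x).sub (hψ.rc_pow _ x)).abs
    · intro x; exact continuousWithinAt_const
    · intro A hA hAs
      have : u A ≤ u (Iio (a + δ)) := measure_mono hAs
      rw [h4] at this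
      exact this.trans (zero_le)
  intro x hx
  rcases le_or_gt x 0 with h0 | h0
  · exact heq x (by linarith)
  · have h6 := h5 x h0 hx
    rw [zero_mul] at h6
    have h7 : φ x ^ (N - 1) = ψ x ^ (N - 1) := by
      have := abs_nonpos_iff.1 h6
      linarith
    exact (pow_left_inj₀ (hφ.nonneg x) (hψ.nonneg x) (by omega)).1 h7

end continuation

section shift

variable {c ε τ : ℝ} {N : ℕ} {P : Measure ℝ} {f g : ℝ → ℝ}

theorem D_apply0 (f0 : ∀ x, x ≤ 0 → f x = 0) {A : Set ℝ} (hA : MeasurableSet A) :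
    D c f A = ∫⁻ x, A.indicator (fun x => ENNReal.ofReal (Real.exp (-c * x) * f x)) x := by
  rw [D_apply hA, ← lintegral_indicator (hA.inter measurableSet_Ioi)]
  refine lintegral_congr fun x => ?_
  by_cases hx : x ∈ A
  · by_cases hx0 : 0 < x
    · rw [indicator_of_mem (show x ∈ A ∩ Ioi 0 from ⟨hx, hx0⟩), indicator_of_mem hx]
    · rw [indicator_of_notMem (show x ∉ A ∩ Ioi 0 from fun h => hx0 h.2), indicator_of_mem hx,
        f0 x (not_lt.1 hx0)]
      simp
  · rw [indicator_of_notMem (show x ∉ A ∩ Ioi 0 from fun h => hx h.1), indicator_of_notMem hx]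

theorem D_shift (f0 : ∀ x, x ≤ 0 → f x = 0) (hτ : 0 < τ) {A : Set ℝ} (hA : MeasurableSet A) :
    D c (fun x => f (x - τ)) A
      = ENNReal.ofReal (Real.exp (-c * τ)) * D c f ((fun y => y + τ) ⁻¹' A) := by
  rw [D_apply0 (fun x hx => f0 (x - τ) (by linarith)) hA,
    D_apply0 f0 ((measurable_add_const τ) hA), ← lintegral_const_mul' _ _ ENNReal.ofReal_ne_top,
    ← lintegral_sub_right_eq_self (fun x => ENNReal.ofReal (Real.exp (-c * τ)) *
      ((fun y => y + τ) ⁻¹' A).indicator
        (fun x => ENNReal.ofReal (Real.exp (-c * x) * f x)) x) τ]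
  refine lintegral_congr fun x => ?_
  by_cases hx : x ∈ A
  · have hx' : x - τ ∈ (fun y => y + τ) ⁻¹' A := by simpa using hx
    rw [indicator_of_mem hx, indicator_of_mem hx', ← ENNReal.ofReal_mul (Real.exp_pos _).le,
      ← mul_assoc, ← Real.exp_add]
    ring_nf
  · have hx' : x - τ ∉ (fun y => y + τ) ⁻¹' A := by simpa using hx
    rw [indicator_of_notMem hx, indicator_of_notMem hx', mul_zero]

theorem Loc.shift (hN : 2 ≤ N) [IsFiniteMeasure P] (hc : 0 < c) {φ : ℝ → ℝ} (hφ : Nice φ)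
    (φ0 : ∀ x, x ≤ 0 → φ x = 0) (hτ : 0 < τ) (h : Loc c ε N P φ) :
    Loc c ε N P (fun x => φ (x - τ)) := by
  intro A hA hAb
  have i1 : IsFiniteMeasure (D c (fun x => φ x ^ (N - 1))) :=
    isFinite_D hc (hφ.meas_pow _) (hφ.pow_nonneg _) (hφ.pow_le_one _)
  have hs : Nice (fun x => φ (x - τ)) :=
    { mono := fun x y hxy => hφ.mono (by linarith)
      rc := fun x => ContinuousWithinAt.comp (f := fun x => x - τ) (hφ.rc (x - τ))
        (by fun_prop) (fun y hy => by simp only [mem_Ici] at hy ⊢; linarith)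
      nonneg := fun x => hφ.nonneg _
      le_one := fun x => hφ.le_one _ }
  have i2 : IsFiniteMeasure (D c (fun x => φ (x - τ) ^ (N - 1))) :=
    isFinite_D hc (hs.meas_pow _) (hs.pow_nonneg _) (hs.pow_le_one _)
  have p0 : ∀ k, k ≠ 0 → ∀ x, x ≤ 0 → φ x ^ k = 0 := fun k hk x hx => by
    rw [φ0 x hx, zero_pow hk]
  have hA' : MeasurableSet ((fun y => y + τ) ⁻¹' A) := (measurable_add_const τ) hA
  have hAb' : (fun y => y + τ) ⁻¹' A ⊆ Iio ε := by
    intro y hy
    have : y + τ < ε := hAb hy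
    simp only [mem_Iio]; linarith
  have e1 := D_shift (c := c) (f := fun x => φ x ^ N) (p0 N (by omega)) hτ hA
  rw [e1, h _ hA' hAb', conv_apply' _ _ hA', conv_apply' _ _ hA,
    ← lintegral_const_mul' _ _ ENNReal.ofReal_ne_top]
  refine lintegral_congr fun x => ?_
  have e2 := D_shift (c := c) (f := fun x => φ x ^ (N - 1)) (p0 (N - 1) (by omega)) hτ
    ((measurable_const_add x) hA)
  rw [e2]
  congr 2
  ext y
  simp only [mem_preimage]
  rw [add_assoc]

/-- The pointwise identity gives the local identity of measures. -/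
theorem loc_of_pointwise (hN : 2 ≤ N) {h : Measure ℝ} (hh : h (Iio 0) = 0)
    (hfin : h (Iio ε) ≠ ∞) {φ : ℝ → ℝ} (hφ : Nice φ) (φ0 : ∀ x, x ≤ 0 → φ x = 0)
    (hid : ∀ x, 0 < x → x < ε → φ x ^ N = ∫ t in Iio ε, φ (x - t) ^ (N - 1) ∂h) :
    Loc c ε N (W c (h.restrict (Iio ε))) φ := by
  intro A hA hAb
  have ifin : IsFiniteMeasure (h.restrict (Iio ε)) :=
    ⟨by rw [Measure.restrict_apply_univ]; exact hfin.lt_top⟩
  have p0 : ∀ k, k ≠ 0 → ∀ x, x ≤ 0 → φ x ^ k = 0 := fun k hk x hx => by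
    rw [φ0 x hx, zero_pow hk]
  have m1 : Measurable (fun x => φ x ^ (N - 1)) := hφ.meas_pow _
  have hae : ∀ᵐ t ∂(h.restrict (Iio ε)), 0 ≤ t := by
    apply ae_restrict_of_ae
    rw [ae_iff]; simpa [Iio_def] using hh
  set ν := D c (fun x => φ x ^ (N - 1)) with hν
  have hsf : SFinite ν := by rw [hν]; unfold D; infer_instance
  have hsW : SFinite (W c (h.restrict (Iio ε))) := by unfold W; infer_instance
  have full : ∀ x, x < ε → φ x ^ N = ∫ t in Iio ε, φ (x - t) ^ (N - 1) ∂h := by
    intro x hx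
    rcases le_or_gt x 0 with h0 | h0
    · rw [p0 N (by omega) x h0]
      symm
      apply integral_eq_zero_of_ae
      filter_upwards [hae] with t ht
      exact p0 (N - 1) (by omega) _ (by linarith)
    · exact hid x h0 hx
  have step1 : ∀ t, ENNReal.ofReal (Real.exp (-c * t)) * ν ((fun y => t + y) ⁻¹' A)
      = ∫⁻ x, A.indicator
        (fun x => ENNReal.ofReal (Real.exp (-c * x) * φ (x - t) ^ (N - 1))) x := by
    intro t
    rw [hν, D_apply0 (p0 (N - 1) (by omega)) ((measurable_const_add t) hA),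
      ← lintegral_const_mul' _ _ ENNReal.ofReal_ne_top,
      ← lintegral_sub_right_eq_self (fun y => ENNReal.ofReal (Real.exp (-c * t)) *
        ((fun y => t + y) ⁻¹' A).indicator
          (fun x => ENNReal.ofReal (Real.exp (-c * x) * φ x ^ (N - 1))) y) t]
    refine lintegral_congr fun x => ?_
    by_cases hx : x ∈ A
    · have hx' : x - t ∈ (fun y => t + y) ⁻¹' A := by simpa using hx
      rw [indicator_of_mem hx, indicator_of_mem hx', ← ENNReal.ofReal_mul (Real.exp_pos _).le,
        ← mul_assoc, ← Real.exp_add]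
      ring_nf
    · have hx' : x - t ∉ (fun y => t + y) ⁻¹' A := by simpa using hx
      rw [indicator_of_notMem hx, indicator_of_notMem hx', mul_zero]
  rw [conv_apply' _ _ hA]
  unfold W
  rw [lintegral_withDensity_eq_lintegral_mul_non_measurable _ (by fun_prop)
    (ae_of_all _ fun x => ENNReal.ofReal_lt_top)]
  simp only [Pi.mul_apply]
  simp_rw [step1]
  rw [lintegral_lintegral_swap]
  · rw [D_apply0 (p0 N (by omega)) hA]
    refine lintegral_congr fun x => ?_
    by_cases hx : x ∈ A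
    · simp only [indicator_of_mem hx]
      have hxε : x < ε := hAb hx
      have hint : Integrable (fun t => φ (x - t) ^ (N - 1)) (h.restrict (Iio ε)) := by
        apply Integrable.of_bound (C := 1)
        · exact (m1.comp (measurable_const.sub measurable_id)).aestronglyMeasurable
        · refine ae_of_all _ fun t => ?_
          rw [Real.norm_of_nonneg (hφ.pow_nonneg _ _)]
          exact hφ.pow_le_one _ _
      rw [full x hxε, ← integral_const_mul,
        ofReal_integral_eq_lintegral_ofReal (hint.const_mul _)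
          (ae_of_all _ fun t => mul_nonneg (Real.exp_pos _).le (hφ.pow_nonneg _ _))]
    · simp only [indicator_of_notMem hx, lintegral_zero]
  · apply Measurable.aemeasurable
    have : (Function.uncurry fun t x => A.indicator
        (fun x => ENNReal.ofReal (Real.exp (-c * x) * φ (x - t) ^ (N - 1))) x)
        = (Prod.snd ⁻¹' A).indicator
          (fun p : ℝ × ℝ => ENNReal.ofReal (Real.exp (-c * p.2) * φ (p.2 - p.1) ^ (N - 1))) := by
      funext p
      by_cases hp : p.2 ∈ A
      · rw [indicator_of_mem (show p ∈ Prod.snd ⁻¹' A from hp)]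
        simp only [Function.uncurry, indicator_of_mem hp]
      · rw [indicator_of_notMem (show p ∉ Prod.snd ⁻¹' A from hp)]
        simp only [Function.uncurry, indicator_of_notMem hp]
    rw [this]
    apply Measurable.indicator _ (measurable_snd hA)
    have m2 : Measurable (fun p : ℝ × ℝ => φ (p.2 - p.1) ^ (N - 1)) :=
      m1.comp (measurable_snd.sub measurable_fst)
    fun_prop

end shift

section swap

variable {c ε a : ℝ} {N : ℕ} {P : Measure ℝ}

theorem conv_congr {μ ν₁ ν₂ : Measure ℝ} [SFinite μ] [SFinite ν₁] [SFinite ν₂] {e b : ℝ}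
    (hμ : μ (Iio e) = 0) (h : ∀ B, MeasurableSet B → B ⊆ Iio (b - e) → ν₁ B = ν₂ B) {A : Set ℝ}
    (hA : MeasurableSet A) (hAb : A ⊆ Iio b) : (μ ∗ ν₁) A = (μ ∗ ν₂) A := by
  apply le_antisymm
  · have := conv_le μ ν₁ ν₂ (C := 1) ENNReal.one_ne_top hμ
      (fun B hB hBs => by rw [one_mul, h B hB hBs]) hA hAb
    simpa using this
  · have := conv_le μ ν₂ ν₁ (C := 1) ENNReal.one_ne_top hμ
      (fun B hB hBs => by rw [one_mul, h B hB hBs]) hA hAb
    simpa using this

theorem conv_swap {X ν Y Z : Measure ℝ} [IsFiniteMeasure X] [IsFiniteMeasure ν]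
    [IsFiniteMeasure Y] [IsFiniteMeasure Z]
    (hX : ∀ B, MeasurableSet B → B ⊆ Iio a → X B = ν B)
    (hY : ∀ B, MeasurableSet B → B ⊆ Iio ε → Y B = Z B) {A : Set ℝ} (hA : MeasurableSet A)
    (hAb : A ⊆ Iio (a + ε)) : (X ∗ Y) A + (ν ∗ Z) A = (ν ∗ Y) A + (X ∗ Z) A := by
  have e0 : X.restrict (Iio a) = ν.restrict (Iio a) := by
    ext B hB
    rw [Measure.restrict_apply hB, Measure.restrict_apply hB]
    exact hX _ (hB.inter measurableSet_Iio) inter_subset_right
  have dX : X = X.restrict (Iio a) + X.restrict (Ici a) := by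
    rw [← compl_Iio]; exact (Measure.restrict_add_restrict_compl measurableSet_Iio).symm
  have dν : ν = X.restrict (Iio a) + ν.restrict (Ici a) := by
    rw [e0, ← compl_Iio]; exact (Measure.restrict_add_restrict_compl measurableSet_Iio).symm
  have hE : Iio a ∩ Ici a = ∅ := by
    ext x
    simp only [mem_inter_iff, mem_Iio, mem_Ici, mem_empty_iff_false, iff_false, not_and, not_le]
    exact id
  have nX : (X.restrict (Ici a)) (Iio a) = 0 := by
    rw [Measure.restrict_apply measurableSet_Iio, hE, measure_empty]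
  have nν : (ν.restrict (Ici a)) (Iio a) = 0 := by
    rw [Measure.restrict_apply measurableSet_Iio, hE, measure_empty]
  have c1 : (X.restrict (Ici a) ∗ Y) A = (X.restrict (Ici a) ∗ Z) A :=
    conv_congr (b := a + ε) nX (fun B hB hBs => hY B hB (by rwa [add_sub_cancel_left] at hBs)) hA hAb
  have c2 : (ν.restrict (Ici a) ∗ Y) A = (ν.restrict (Ici a) ∗ Z) A :=
    conv_congr (b := a + ε) nν (fun B hB hBs => hY B hB (by rwa [add_sub_cancel_left] at hBs)) hA hAb
  have x1 : (X ∗ Y) A = (X.restrict (Iio a) ∗ Y) A + (X.restrict (Ici a) ∗ Y) A := by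
    conv_lhs => rw [dX]
    rw [Measure.add_conv, Measure.add_apply]
  have x2 : (X ∗ Z) A = (X.restrict (Iio a) ∗ Z) A + (X.restrict (Ici a) ∗ Z) A := by
    conv_lhs => rw [dX]
    rw [Measure.add_conv, Measure.add_apply]
  have x3 : (ν ∗ Y) A = (X.restrict (Iio a) ∗ Y) A + (ν.restrict (Ici a) ∗ Y) A := by
    conv_lhs => rw [dν]
    rw [Measure.add_conv, Measure.add_apply]
  have x4 : (ν ∗ Z) A = (X.restrict (Iio a) ∗ Z) A + (ν.restrict (Ici a) ∗ Z) A := by
    conv_lhs => rw [dν]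
    rw [Measure.add_conv, Measure.add_apply]
  rw [x1, x2, x3, x4, c1, c2]
  ring

end swap

section final

theorem lap_integrable {f : ℝ → ℝ} (hf : Measurable f) (h0 : ∀ x, 0 ≤ f x) (h1 : ∀ x, f x ≤ 1)
    {s : ℝ} (hs : 0 < s) : IntegrableOn (fun x => Real.exp (-s * x) * f x) (Ioi 0) := by
  refine Integrable.mono' (exp_neg_integrableOn_Ioi 0 hs) ?_ (ae_of_all _ fun x => ?_)
  · exact (by fun_prop : Measurable fun x : ℝ =>
      Real.exp (-s * x) * f x).aestronglyMeasurable
  · rw [Real.norm_of_nonneg (by have := h0 x; positivity)]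
    have h2 := h1 x
    have h3 := Real.exp_pos (-s * x)
    nlinarith

/-- The ratio of the Laplace transforms of `F ^ N` and `F ^ (N - 1)`. -/
noncomputable def H (N : ℕ) (F : ℝ → ℝ) (s : ℝ) : ℝ :=
  lap (fun x => F x ^ N) s / lap (fun x => F x ^ (N - 1)) s

/-- The ratio of the Laplace transforms of the distribution functions
`F ^ N` and `N F ^ (N - 1) - (N - 1) F ^ N` of the two largest of `N` independent variables. -/
noncomputable def K (N : ℕ) (F : ℝ → ℝ) (s : ℝ) : ℝ :=
  lap (fun x => F x ^ N) s / lap (fun x => N * F x ^ (N - 1) - (N - 1) * F x ^ N) s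

theorem InC.nice {F : ℝ → ℝ} (h : InC F) : Nice F where
  mono := h.mono
  rc := h.rightCont
  nonneg := fun x => by
    rcases le_or_gt x 0 with hx | hx
    · rw [h.zero x hx]
    · exact (h.pos x hx).le
  le_one := fun x => h.mono.ge_of_tendsto h.top x

theorem InC.shift {F : ℝ → ℝ} (h : InC F) (τ : ℝ) : Nice (fun x => F (x - τ)) where
  mono := fun x y hxy => h.mono (by linarith)
  rc := fun x => by
    have h1 := h.rightCont (x - τ)
    exact ContinuousWithinAt.comp (f := fun x => x - τ) h1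
      (by fun_prop) (fun y hy => by simp only [mem_Ici] at hy ⊢; linarith)
  nonneg := fun x => h.nice.nonneg _
  le_one := fun x => h.nice.le_one _

theorem lap_pow_pos {F : ℝ → ℝ} (h : InC F) (k : ℕ) {s : ℝ} (hs : 0 < s) :
    0 < lap (fun x => F x ^ k) s := by
  unfold lap
  rw [setIntegral_pos_iff_support_of_nonneg_ae]
  · have : Function.support (fun x => Real.exp (-s * x) * F x ^ k) ∩ Ioi 0 = Ioi 0 := by
      apply inter_eq_right.2
      intro x hx
      have := h.pos x hx
      simp only [Function.mem_support]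
      positivity
    rw [this]; simp
  · exact ae_of_all _ fun x => mul_nonneg (Real.exp_pos _).le (h.nice.pow_nonneg k x)
  · exact lap_integrable (h.nice.meas_pow k) (h.nice.pow_nonneg k) (h.nice.pow_le_one k) hs

theorem K_denom {N : ℕ} {F : ℝ → ℝ} (h : InC F) {s : ℝ} (hs : 0 < s) :
    lap (fun x => N * F x ^ (N - 1) - (N - 1) * F x ^ N) s
      = N * lap (fun x => F x ^ (N - 1)) s - (N - 1) * lap (fun x => F x ^ N) s := by
  have i1 := lap_integrable (h.nice.meas_pow (N - 1)) (h.nice.pow_nonneg _) (h.nice.pow_le_one _) hs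
  have i2 := lap_integrable (h.nice.meas_pow N) (h.nice.pow_nonneg _) (h.nice.pow_le_one _) hs
  unfold lap
  rw [← integral_const_mul, ← integral_const_mul, ← integral_sub (i1.const_mul _) (i2.const_mul _)]
  refine integral_congr_ae (ae_of_all _ fun x => ?_)
  simp only
  ring

theorem lap_mono {N : ℕ} {F : ℝ → ℝ} (h : InC F) {s : ℝ} (hs : 0 < s) :
    lap (fun x => F x ^ N) s ≤ lap (fun x => F x ^ (N - 1)) s := by
  have i1 := lap_integrable (h.nice.meas_pow (N - 1)) (h.nice.pow_nonneg _) (h.nice.pow_le_one _) hs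
  have i2 := lap_integrable (h.nice.meas_pow N) (h.nice.pow_nonneg _) (h.nice.pow_le_one _) hs
  unfold lap
  apply integral_mono i2 i1
  intro x
  apply mul_le_mul_of_nonneg_left _ (Real.exp_pos _).le
  exact pow_le_pow_of_le_one (h.nice.nonneg x) (h.nice.le_one x) (by omega)

/-- Equality of `K` gives equality of `H`. -/
theorem H_eq_of_K_eq {N : ℕ} (hN : 2 ≤ N) {F G : ℝ → ℝ} (hF : InC F) (hG : InC G) {s : ℝ}
    (hs : 0 < s) (h : K N F s = K N G s) : H N F s = H N G s := by
  unfold K at h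
  unfold H
  rw [K_denom hF hs, K_denom hG hs] at h
  have a1 := lap_pow_pos hF (N - 1) hs
  have a2 := lap_pow_pos hG (N - 1) hs
  have a3 := lap_mono (N := N) hF hs
  have a4 := lap_mono (N := N) hG hs
  have hN' : (2:ℝ) ≤ N := by exact_mod_cast hN
  set a := lap (fun x => F x ^ N) s
  set b := lap (fun x => F x ^ (N - 1)) s
  set c := lap (fun x => G x ^ N) s
  set d := lap (fun x => G x ^ (N - 1)) s
  have d1 : 0 < N * b - (N - 1) * a := by nlinarith
  have d2 : 0 < N * d - (N - 1) * c := by nlinarith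
  rw [div_eq_div_iff d1.ne' d2.ne'] at h
  rw [div_eq_div_iff a1.ne' a2.ne']
  have hN0 : (N:ℝ) ≠ 0 := by positivity
  apply mul_left_cancel₀ hN0
  linarith

theorem no_atom {c ε : ℝ} {N : ℕ} (hN : 2 ≤ N) {P : Measure ℝ} [IsFiniteMeasure P]
    (hc : 0 < c) (hε : 0 < ε) {F : ℝ → ℝ} (hF : InC F) (idF : Loc c ε N P F) : P {0} = 0 := by
  by_contra hne
  have i1 : IsFiniteMeasure (D c (fun x => F x ^ (N - 1))) :=
    isFinite_D hc (hF.nice.meas_pow _) (hF.nice.pow_nonneg _) (hF.nice.pow_le_one _)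
  set m : ℝ := (P {0}).toReal with hm
  have hmP : ENNReal.ofReal m = P {0} := ENNReal.ofReal_toReal (measure_ne_top _ _)
  have hm0 : 0 < m := ENNReal.toReal_pos hne (measure_ne_top _ _)
  have h1 : ∀ x, 0 < x → x < ε → F x ^ (N - 1) ≤ (1 / m) * F x ^ N := by
    apply le_of_D_le (c := c) (by positivity) (hF.nice.meas_pow _) (hF.nice.meas_pow _)
      (hF.nice.pow_nonneg _) (hF.nice.rc_pow _) (hF.nice.rc_pow _)
    intro A hA hAs
    rw [idF A hA hAs, conv_apply' _ _ hA]
    have h2 : ∫⁻ x in {0}, D c (fun x => F x ^ (N - 1)) ((fun y => x + y) ⁻¹' A) ∂P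
        ≤ ∫⁻ x, D c (fun x => F x ^ (N - 1)) ((fun y => x + y) ⁻¹' A) ∂P :=
      setLIntegral_le_lintegral _ _
    rw [lintegral_singleton] at h2
    have h3 : (fun y : ℝ => (0:ℝ) + y) ⁻¹' A = A := by ext y; simp
    rw [h3, ← hmP] at h2
    calc D c (fun x => F x ^ (N - 1)) A
        = ENNReal.ofReal (1 / m) * (D c (fun x => F x ^ (N - 1)) A * ENNReal.ofReal m) := by
          rw [mul_comm (D c _ A), ← mul_assoc, ← ENNReal.ofReal_mul (by positivity), one_div,
            inv_mul_cancel₀ hm0.ne', ENNReal.ofReal_one, one_mul]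
      _ ≤ _ := by gcongr
  have h2 : ∀ x, 0 < x → x < ε → m ≤ F x := by
    intro x hx hxe
    have h3 := h1 x hx hxe
    have h4 := hF.pos x hx
    have h5 : F x ^ N = F x ^ (N - 1) * F x := by
      conv_lhs => rw [show N = (N - 1) + 1 by omega, pow_succ]
    rw [h5, one_div, inv_mul_eq_div, le_div_iff₀ hm0] at h3
    exact le_of_mul_le_mul_left h3 (by positivity)
  have h3 : Tendsto F (𝓝[>] 0) (𝓝 (F 0)) :=
    (hF.rightCont 0).mono_left (nhdsWithin_mono _ Ioi_subset_Ici_self)
  have h4 : m ≤ F 0 := by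
    apply ge_of_tendsto h3
    have : Ioo (0:ℝ) ε ∈ 𝓝[>] (0:ℝ) := Ioo_mem_nhdsGT hε
    filter_upwards [this] with x hx using h2 x hx.1 hx.2
  rw [hF.zero 0 le_rfl] at h4
  linarith

theorem exists_delta {P : Measure ℝ} [IsFiniteMeasure P] (h : P (Iic 0) = 0) {ε c₁ : ℝ}
    (hε : 0 < ε) (hc₁ : 0 < c₁) : ∃ δ, 0 < δ ∧ δ ≤ ε ∧ P (Iic δ) < ENNReal.ofReal c₁ := by
  have h1 : Tendsto (P ∘ fun n : ℕ => Iic (1 / ((n:ℝ) + 1))) atTop
      (𝓝 (P (⋂ n : ℕ, Iic (1 / ((n:ℝ) + 1))))) := by
    apply tendsto_measure_iInter_atTop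
    · intro n; exact measurableSet_Iic.nullMeasurableSet
    · intro n m hnm
      apply Iic_subset_Iic.2
      apply one_div_le_one_div_of_le (by positivity)
      have : (n:ℝ) ≤ m := by exact_mod_cast hnm
      linarith
    · exact ⟨0, measure_ne_top _ _⟩
  have h2 : (⋂ n : ℕ, Iic (1 / ((n:ℝ) + 1))) = Iic (0:ℝ) := by
    ext x
    simp only [mem_iInter, mem_Iic]
    constructor
    · intro hx
      exact ge_of_tendsto' tendsto_one_div_add_atTop_nhds_zero_nat hx
    · intro hx n
      have : (0:ℝ) < 1 / ((n:ℝ) + 1) := by positivity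
      linarith
  rw [h2, h] at h1
  have h3 : ∀ᶠ n : ℕ in atTop, P (Iic (1 / ((n:ℝ) + 1))) < ENNReal.ofReal c₁ :=
    h1.eventually (Iio_mem_nhds (ENNReal.ofReal_pos.2 hc₁))
  have h4 : ∀ᶠ n : ℕ in atTop, 1 / ((n:ℝ) + 1) < ε :=
    tendsto_one_div_add_atTop_nhds_zero_nat.eventually (Iio_mem_nhds hε)
  obtain ⟨n, hn3, hn4⟩ := (h3.and h4).exists
  exact ⟨1 / ((n:ℝ) + 1), by positivity, hn4.le, hn3⟩

/-- One-sided local comparison for members of `C`. -/
theorem local_le {c ε : ℝ} {N : ℕ} (hN : 2 ≤ N) {P : Measure ℝ} [IsFiniteMeasure P]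
    (hc : 0 < c) (hP : P (Iio 0) = 0) {F G : ℝ → ℝ} (hF : InC F) (hG : InC G)
    (idF : Loc c ε N P F) (idG : Loc c ε N P G) : ∀ x, x < ε → F x ≤ G x := by
  intro y hy
  rcases le_or_gt y 0 with h0 | h0
  · rw [hF.zero y h0]; exact hG.nice.nonneg y
  have h1 : ∀ x, y < x → x < ε → F y ≤ G x := by
    intro x hyx hxe
    have h2 := local_compare (τ := x - y) hN hc (by linarith) hP (hF.shift (x - y)) hG.nice
      (fun z hz => hF.zero _ (by linarith)) hG.pos
      (idF.shift hN hc hF.nice hF.zero (by linarith)) idG x (by linarith) hxe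
    simpa using h2
  have h3 : Tendsto G (𝓝[>] y) (𝓝 (G y)) :=
    (hG.rightCont y).mono_left (nhdsWithin_mono _ Ioi_subset_Ici_self)
  apply ge_of_tendsto h3
  have : Ioo y ε ∈ 𝓝[>] y := Ioo_mem_nhdsGT hy
  filter_upwards [this] with x hx using h1 x hx.1 hx.2

theorem D_pos {c : ℝ} {F : ℝ → ℝ} (hF : InC F) (k : ℕ) {δ : ℝ} (hδ : 0 < δ) :
    D c (fun x => F x ^ k) (Iio δ) ≠ 0 := by
  rw [D_apply measurableSet_Iio]
  apply ne_of_gt
  have hm : Measurable (fun x => F x ^ k) := hF.nice.meas_pow k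
  rw [setLIntegral_pos_iff (by fun_prop)]
  have hsub : Ioo 0 δ ⊆ Function.support
      (fun x => ENNReal.ofReal (Real.exp (-c * x) * F x ^ k)) ∩ (Iio δ ∩ Ioi 0) := by
    intro x hx
    refine ⟨?_, hx.2, hx.1⟩
    have := hF.pos x hx.1
    have h2 : 0 < Real.exp (-c * x) * F x ^ k := by positivity
    exact (ENNReal.ofReal_pos.2 h2).ne'
  refine lt_of_lt_of_le ?_ (measure_mono hsub)
  rw [Real.volume_Ioo]
  exact ENNReal.ofReal_pos.2 (by linarith)

theorem conv_null {P ν : Measure ℝ} [SFinite P] [SFinite ν] (hP : P (Iio 0) = 0)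
    (hν : ν (Iio 0) = 0) : (P ∗ ν) (Iio 0) = 0 := by
  have := conv_le P ν ν (C := 0) ENNReal.zero_ne_top hP (b := 0)
    (fun B hB hBs => by
      rw [zero_mul, nonpos_iff_eq_zero]
      exact measure_mono_null (by simpa using hBs) hν) measurableSet_Iio subset_rfl
  simpa using this

/-- Let `N ≥ 2` and let `F` be in `C` such that near zero `F ^ N` is the convolution of `F ^ (N - 1)`
with a positive measure `h`. Then `K N F` determines `F` in the whole class `C`. -/
theorem result (N : ℕ) (hN : 2 ≤ N) (F G : ℝ → ℝ) (hF : InC F) (hG : InC G)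
    (h : Measure ℝ) (s₀ ε : ℝ) (hs₀ : 0 ≤ s₀) (hε : 0 < ε)
    (hh : h (Iio 0) = 0) (hfin : h (Iio ε) ≠ ∞)
    (hloc : ∀ x, 0 < x → x < ε → F x ^ N = ∫ t in Iio ε, F (x - t) ^ (N - 1) ∂h)
    (hK : ∀ s, s₀ < s → K N F s = K N G s) : F = G := by
  have hc : 0 < s₀ + 1 := by linarith
  have ih : IsFiniteMeasure (h.restrict (Iio ε)) :=
    ⟨by rw [Measure.restrict_apply_univ]; exact hfin.lt_top⟩
  have hh' : (h.restrict (Iio ε)) (Iio 0) = 0 := by
    rw [Measure.restrict_apply measurableSet_Iio]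
    exact measure_mono_null inter_subset_left hh
  set P := W (s₀ + 1) (h.restrict (Iio ε)) with hPdef
  have iP : IsFiniteMeasure P :=
    isFinite_W (s₀ := s₀) (fun s hs => L_int hh' (by linarith)) (by linarith)
  have hP : P (Iio 0) = 0 := withDensity_absolutelyContinuous _ _ hh'
  have fin : ∀ A : ℝ → ℝ, InC A → ∀ k, IsFiniteMeasure (D (s₀ + 1) (fun x => A x ^ k)) :=
    fun A hA k => isFinite_D hc (hA.nice.meas_pow _) (hA.nice.pow_nonneg _) (hA.nice.pow_le_one _)
  have iX := fin F hF (N - 1)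
  have iFN := fin F hF N
  have iν := fin G hG (N - 1)
  have iY := fin G hG N
  have Dnull : ∀ f : ℝ → ℝ, D (s₀ + 1) f (Iio 0) = 0 := fun f =>
    D_neg measurableSet_Iio subset_rfl
  have locF : Loc (s₀ + 1) ε N P F := loc_of_pointwise hN hh hfin hF.nice hF.zero hloc
  have glob : D (s₀ + 1) (fun x => F x ^ (N - 1)) ∗ D (s₀ + 1) (fun x => G x ^ N)
      = D (s₀ + 1) (fun x => F x ^ N) ∗ D (s₀ + 1) (fun x => G x ^ (N - 1)) := by
    apply global_identity hs₀ (hF.nice.meas_pow _) (hF.nice.pow_nonneg _) (hF.nice.pow_le_one _)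
      (hG.nice.meas_pow _) (hG.nice.pow_nonneg _) (hG.nice.pow_le_one _)
      (hF.nice.meas_pow _) (hF.nice.pow_nonneg _) (hF.nice.pow_le_one _)
      (hG.nice.meas_pow _) (hG.nice.pow_nonneg _) (hG.nice.pow_le_one _)
    intro s hs
    have e := H_eq_of_K_eq hN hF hG (by linarith) (hK s hs)
    unfold H at e
    rw [div_eq_div_iff (lap_pow_pos hF (N - 1) (by linarith)).ne'
      (lap_pow_pos hG (N - 1) (by linarith)).ne'] at e
    linarith
  -- the local identity for `G`
  have locG : Loc (s₀ + 1) ε N P G := by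
    apply cancel (ν := D (s₀ + 1) (fun x => F x ^ (N - 1))) (Dnull _) (Dnull _)
      (conv_null hP (Dnull _)) (fun δ hδ => D_pos hF (N - 1) hδ)
    intro A hA hAb
    rw [glob, ← Measure.conv_assoc, Measure.conv_comm (D (s₀ + 1) (fun x => F x ^ (N - 1))) P,
      Measure.conv_comm (D (s₀ + 1) (fun x => F x ^ N)),
      Measure.conv_comm (P ∗ D (s₀ + 1) (fun x => F x ^ (N - 1)))]
    refine conv_congr (e := 0) (b := ε) (Dnull _) (fun B hB hBs => ?_) hA hAb
    rw [sub_zero] at hBs
    exact locF B hB hBs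
  -- equality near zero
  have near : ∀ x < ε, F x = G x := by
    intro x hx
    exact le_antisymm (local_le hN hc hP hF hG locF locG x hx)
      (local_le hN hc hP hG hF locG locF x hx)
  -- the identity used for the continuation
  have swap : ∀ a, (∀ x < a, F x = G x) → Swap (s₀ + 1) (a + ε) N P F G := by
    intro a ha A hA hAb
    rw [← Measure.add_apply, ← Measure.add_apply]
    refine cancel (ν := D (s₀ + 1) (fun x => G x ^ (N - 1))) (b := a + ε) (Dnull _) ?_ ?_
      (fun δ hδ => D_pos hG (N - 1) hδ) ?_ A hA hAb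
    · rw [Measure.add_apply, Dnull, conv_null hP (Dnull _), add_zero]
    · rw [Measure.add_apply, Dnull, conv_null hP (Dnull _), add_zero]
    · intro B hB hBb
      rw [Measure.conv_add, Measure.conv_add, Measure.add_apply, Measure.add_apply]
      have e1 : D (s₀ + 1) (fun x => G x ^ (N - 1)) ∗ D (s₀ + 1) (fun x => F x ^ N)
          = D (s₀ + 1) (fun x => F x ^ (N - 1)) ∗ D (s₀ + 1) (fun x => G x ^ N) := by
        rw [glob, Measure.conv_comm]
      have e2 : D (s₀ + 1) (fun x => G x ^ (N - 1)) ∗ (P ∗ D (s₀ + 1) (fun x => F x ^ (N - 1)))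
          = D (s₀ + 1) (fun x => F x ^ (N - 1)) ∗ (P ∗ D (s₀ + 1) (fun x => G x ^ (N - 1))) := by
        rw [← Measure.conv_assoc, Measure.conv_comm _ (D (s₀ + 1) (fun x => F x ^ (N - 1))),
          Measure.conv_comm (D (s₀ + 1) (fun x => G x ^ (N - 1))) P]
      rw [e1, e2]
      refine conv_swap (fun B hB hBs => ?_) (fun B hB hBs => locG B hB hBs) hB hBb
      apply le_antisymm
      · apply D_mono_on hB
        intro x hx
        rw [ha x (hBs hx)]
      · apply D_mono_on hB
        intro x hx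
        rw [ha x (hBs hx)]
  -- continuation
  have hat : P {0} = 0 := no_atom hN hc hε hF locF
  have hP0 : P (Iic 0) = 0 := by
    have : Iic (0:ℝ) = Iio 0 ∪ {0} := by
      ext x; simp only [mem_Iic, mem_union, mem_Iio, mem_singleton_iff]; exact le_iff_lt_or_eq
    rw [this]
    exact measure_union_null hP hat
  set c₁ : ℝ := min (F (ε / 2)) (G (ε / 2)) with hc₁def
  have hc₁ : 0 < c₁ := lt_min (hF.pos _ (by linarith)) (hG.pos _ (by linarith))
  obtain ⟨δ, hδ, hδε, hPδ⟩ := exists_delta hP0 hε hc₁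
  have all : ∀ n : ℕ, ∀ x < ε + n * δ, F x = G x := by
    intro n
    induction n with
    | zero => intro x hx; exact near x (by simpa using hx)
    | succ n ih =>
      intro x hx
      have hn : 0 ≤ (n:ℝ) * δ := by positivity
      refine continuation_step hN hF.nice hG.nice hc hP (a := ε + n * δ) (by linarith)
        hc₁ ?_ ?_ hPδ ih (fun A hA hAb => swap _ ih A hA ?_) x ?_
      · intro y hy
        exact (min_le_left _ _).trans (hF.mono (by linarith))
      · intro y hy
        exact (min_le_right _ _).trans (hG.mono (by linarith))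
      · intro y hy
        have : y < ε + n * δ + δ := hAb hy
        simp only [mem_Iio]; linarith
      · push_cast at hx; linarith
  funext x
  obtain ⟨n, hn⟩ := exists_nat_gt (x / δ)
  apply all n x
  rw [div_lt_iff₀ hδ] at hn
  linarith

end final

end Pool.Agent.Results.MP_18566a_pr.LocalRegularity
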